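import Pool.Agent.Lib_MP_42fe4d_lc.TM.FPLib
import Pool.Agent.Lib_MP_42fe4d_lc.Defs

/-!
Codes of formulas as polynomial time functions (independent of the graph construction).
-/

namespace Pool.Agent.PartSep.TM

open Prog Rep

set_option synthInstance.maxSize 2000

variable {E F G H : Type} [Rep E] [Rep F] [Rep G] [Rep H]

theorem FP.isEmptyE {l : E → List F} (hl : FP l) : FP (fun x => (l x).isEmpty) :=
  (FP.natIsZero (FP.lengthE hl)).congr (fun x => by cases l x <;> simp)

/-- exclusive or -/
theorem FP.bne {p q : E → Bool} (hp : FP p) (hq : FP q) : FP (fun x => p x != q x) :=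
  (FP.ite hp (FP.not hq) hq).congr (fun x => by cases p x <;> cases q x <;> rfl)

/-- Iteration with a potential function. -/
theorem FP.foldl_pot {l : E → List Sym} (hl : FP l) {init : E → F} (h0 : FP init)
    {step : Sym → E × F → F} (hg : ∀ a, FP (step a)) (μ : F → ℕ) (q : Polynomial ℕ)
    (h1 : ∀ s, size s ≤ μ s) (h2 : ∀ x, μ (init x) ≤ q.eval (size x))
    (hq : ∀ a x s, μ (step a (x, s)) ≤ μ s + q.eval (size x)) :
    FP (fun x => List.foldl (fun s a => step a (x, s)) (init x) (l x)) := by
  obtain ⟨pl, hpl⟩ := hl.size_le
  refine FP.foldl hl h0 hg ⟨q + pl * q, fun x l' hl' => ?_⟩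
  have key : ∀ (l' : List Sym) (s : F), μ (List.foldl (fun s a => step a (x, s)) s l') ≤
      μ s + l'.length * q.eval (size x) := by
    intro l'
    induction l' with
    | nil => intro s; simp
    | cons a l' ih =>
      intro s
      have h1 := ih (step a (x, s))
      have h2 := hq a x s
      simp only [List.foldl_cons, List.length_cons, Nat.succ_mul]
      omega
  have g1 := key l' (init x)
  have g2 : l'.length ≤ pl.eval (size x) := by
    refine (hl'.length_le).trans ?_
    have := hpl x
    rwa [size_list] at this
  have g3 := h2 x
  have g4 : l'.length * q.eval (size x) ≤ pl.eval (size x) * q.eval (size x) :=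
    Nat.mul_le_mul_right _ g2
  have g5 := h1 (List.foldl (fun s a => step a (x, s)) (init x) l')
  simp only [Polynomial.eval_add, Polynomial.eval_mul]
  omega

/-- names of variables -/
abbrev Name := List Sym

theorem FP.mulConst {f : E → ℕ} (hf : FP f) (k : ℕ) : FP (fun x => k * f x) :=
  FP.mul (FP.const k) hf

theorem FP.addConst {f : E → ℕ} (hf : FP f) (k : ℕ) : FP (fun x => f x + k) :=
  FP.add hf (FP.const k)

/-- bits as symbols -/
def bs (b : Bool) : Sym := if b then Sym.i else Sym.o

def sb (a : Sym) : Bool := decide (a = Sym.i)

theorem sb_bs (b : Bool) : sb (bs b) = b := by cases b <;> rfl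

theorem bs_injective : Function.Injective bs := by
  intro a b h
  rw [← sb_bs a, h, sb_bs]

/-- self-delimiting code with bits -/
def del (l : List Sym) : List Sym := l.flatMap (fun b => [Sym.i, b]) ++ [Sym.o]

theorem FP.del {l : E → List Sym} (hl : FP l) : FP (fun x => del (l x)) :=
  FP.append (FP.subst hl _) (FP.const _)

end Pool.Agent.PartSep.TM

namespace Pool.Agent.PartSep

open N487b59b3

namespace TM

open Prog Rep

set_option synthInstance.maxSize 2000

variable {E F G H : Type} [Rep E] [Rep F] [Rep G] [Rep H]

theorem map_delimit (l : List Bool) : (delimit l).map bs = del (l.map bs) := by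
  induction l with
  | nil => rfl
  | cons b l ih =>
    simp only [delimit, List.map_cons, ih, del, List.flatMap_cons]
    rfl

theorem bitEncode_list {α : Type} [N487b59b3 α] (l : List α) :
    (bitEncode l).map bs = l.flatMap (fun a => del ((bitEncode a).map bs)) := by
  change (((l.map bitEncode).map delimit).flatten).map bs = _
  induction l with
  | nil => rfl
  | cons a l ih =>
    simp only [List.map_cons, List.flatten_cons, List.map_append, List.flatMap_cons] at ih ⊢
    rw [ih, map_delimit]

theorem bitEncode_prod {α β : Type} [N487b59b3 α] [N487b59b3 β] (p : α × β) :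
    (bitEncode p).map bs = del ((bitEncode p.1).map bs) ++ (bitEncode p.2).map bs := by
  change (delimit (bitEncode p.1) ++ bitEncode p.2).map bs = _
  rw [List.map_append, map_delimit]

theorem bitEncode_bool (b : Bool) : (bitEncode b).map bs = [bs b] := rfl

/-- splitting a concatenation of codes -/
def splitStep (a : Sym) (s : Bool × (List Sym × List (List Sym))) :
    Bool × (List Sym × List (List Sym)) :=
  if s.1 then (false, (a :: s.2.1, s.2.2))
  else if a = Sym.i then (true, s.2) else (false, ([], s.2.1.reverse :: s.2.2))

def splitB (l : List Sym) : List (List Sym) :=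
  (l.foldl (fun s a => splitStep a s) (false, ([], []))).2.2.reverse

theorem split_aux (w : List Sym) : ∀ (cur : List Sym) (acc : List (List Sym)),
    (w.flatMap (fun b => [Sym.i, b])).foldl (fun s a => splitStep a s) (false, (cur, acc)) =
      (false, (w.reverse ++ cur, acc)) := by
  induction w with
  | nil => intro cur acc; rfl
  | cons a w ih =>
    intro cur acc
    rw [List.flatMap_cons, List.foldl_append]
    have : List.foldl (fun s a => splitStep a s) (false, (cur, acc)) [Sym.i, a] =
        (false, (a :: cur, acc)) := by simp [splitStep]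
    rw [this, ih]
    simp

theorem split_del (w : List Sym) (acc : List (List Sym)) :
    (del w).foldl (fun s a => splitStep a s) (false, ([], acc)) = (false, ([], w :: acc)) := by
  unfold del
  rw [List.foldl_append, split_aux]
  simp [splitStep]

theorem splitB_flatMap (bl : List (List Sym)) : splitB (bl.flatMap del) = bl := by
  have key : ∀ (bl acc : List (List Sym)),
      (bl.flatMap del).foldl (fun s a => splitStep a s) (false, ([], acc)) =
        (false, ([], bl.reverse ++ acc)) := by
    intro bl
    induction bl with
    | nil => intro acc; rfl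
    | cons w bl ih =>
      intro acc
      rw [List.flatMap_cons, List.foldl_append, split_del, ih]
      simp
  unfold splitB
  rw [key]
  simp

theorem FP.splitB {l : E → List Sym} (hl : FP l) : FP (fun x => splitB (l x)) := by
  have hs : FP (fun x => (l x).foldl (fun s a => splitStep a s)
      (false, (([] : List Sym), ([] : List (List Sym))))) := by
    refine FP.foldl_pot hl (init := fun _ => (false, (([] : List Sym), ([] : List (List Sym)))))
      (FP.const _) (step := fun a y => splitStep a y.2) (fun a => ?_)
      (fun s => 1 + 2 * s.2.1.length + size s.2.2) 2 ?_ ?_ ?_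
    · unfold splitStep
      have e2 : FP (fun y : E × (Bool × (List Sym × List (List Sym))) => y.2.2) :=
        FP.comp FP.snd FP.snd
      have e3 : FP (fun y : E × (Bool × (List Sym × List (List Sym))) => y.2.2.1) :=
        FP.comp FP.fst e2
      have e4 : FP (fun y : E × (Bool × (List Sym × List (List Sym))) => y.2.2.2) :=
        FP.comp FP.snd e2
      refine FP.ite (FP.comp FP.fst FP.snd) ?_ ?_
      · exact FP.pair (FP.const _) (FP.pair (FP.cons a e3) e4)
      · by_cases h : a = Sym.i
        · simp only [h, if_true]
          exact FP.pair (FP.const _) e2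
        · simp only [h, if_false]
          exact FP.pair (FP.const _) (FP.pair (FP.const _) (FP.consE (FP.reverse e3) e4))
    · rintro ⟨b, cur, acc⟩
      simp only [size_pair, size_list]
      have := size_bool b
      omega
    · intro x
      simp only [size_nilE, List.length_nil, Polynomial.eval_ofNat]
      omega
    · rintro a x ⟨b, cur, acc⟩
      simp only [splitStep]
      have hc : Fintype.card (ix (List Sym)) = 1 := rfl
      split_ifs <;> simp only [List.length_cons, size_cons, size_list, List.length_reverse, hc,
        List.length_nil, Polynomial.eval_ofNat] <;> omega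
  exact FP.reverseE (FP.comp FP.snd (FP.comp FP.snd hs))

/-- parsing a literal -/
def parseLit (w : List Sym) : Name × Bool :=
  ((splitB w)[0]?.getD [], decide (w.reverse.head? = some Sym.i))

theorem parseLit_eq (name : List Sym) (b : Bool) :
    parseLit (del name ++ [bs b]) = (name, b) := by
  unfold parseLit splitB
  rw [List.foldl_append, split_del]
  cases b
  · simp [splitStep, bs]
  · simp [splitStep, bs]

theorem FP.parseLit {l : E → List Sym} (hl : FP l) : FP (fun x => parseLit (l x)) := by
  unfold TM.parseLit
  exact FP.pair (FP.getE (FP.splitB hl) (FP.const 0) []) (FP.headIs (FP.reverse hl) _)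

/-- parsing a formula -/
def parseCNF (w : List Sym) : CNF Name :=
  (splitB w).map (fun c => (splitB c).map parseLit)

theorem FP.parseCNF : FP parseCNF := by
  unfold TM.parseCNF
  refine FP.mapE (FP.splitB FP.id) (g := fun y : List Sym × List Sym => (TM.splitB y.2).map
    TM.parseLit) ?_
  exact FP.mapE (FP.splitB FP.snd) (g := fun z : (List Sym × List Sym) × List Sym =>
    TM.parseLit z.2) (FP.parseLit FP.snd)

/-- renaming of the variables of a formula -/
def rename {ν ν' : Type} (g : ν → ν') (φ : CNF ν) : CNF ν' :=
  φ.map (fun c => c.map (fun l => (g l.1, l.2)))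

theorem sat_rename {ν ν' : Type} {g : ν → ν'} (hg : Function.Injective g) (φ : CNF ν) :
    (rename g φ).Satisfiable ↔ φ.Satisfiable := by
  classical
  constructor
  · rintro ⟨τ, hτ⟩
    refine ⟨fun x => τ (g x), fun c hc => ?_⟩
    obtain ⟨l, hl, hl'⟩ := hτ _ (List.mem_map.2 ⟨c, hc, rfl⟩)
    obtain ⟨l0, hl0, rfl⟩ := List.mem_map.1 hl
    exact ⟨l0, hl0, hl'⟩
  · rintro ⟨τ, hτ⟩
    refine ⟨fun y => if h : ∃ x, g x = y then τ h.choose else false, ?_⟩
    intro c hc
    obtain ⟨c0, hc0, rfl⟩ := List.mem_map.1 hc
    obtain ⟨l, hl, hl'⟩ := hτ c0 hc0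
    refine ⟨(g l.1, l.2), List.mem_map.2 ⟨l, hl, rfl⟩, ?_⟩
    have hex : ∃ x, g x = g l.1 := ⟨l.1, rfl⟩
    simp only [dif_pos hex]
    rw [hg hex.choose_spec, hl']

/-- names of the natural numbers -/
def natName (n : ℕ) : Name := (Computability.encodeNat n).map bs

theorem natName_injective : Function.Injective natName := by
  intro a b h
  have h1 := List.map_injective_iff.2 bs_injective h
  have h2 := congrArg Computability.decodeNat h1
  simpa [Computability.decode_encodeNat] using h2

theorem parseCNF_eq (φ : CNF ℕ) : parseCNF ((bitEncode φ).map bs) = rename natName φ := by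
  have hlit : ∀ l : Lit ℕ, (bitEncode l).map bs = del (natName l.1) ++ [bs l.2] := by
    intro l
    rw [bitEncode_prod]
    rfl
  have hcl : ∀ c : List (Lit ℕ), (bitEncode c).map bs =
      (c.map (fun l => del (natName l.1) ++ [bs l.2])).flatMap del := by
    intro c
    rw [bitEncode_list, List.flatMap_map]
    congr 1
    funext l
    rw [hlit]
  have hf : (bitEncode φ).map bs = (φ.map (fun c => (bitEncode c).map bs)).flatMap del := by
    rw [bitEncode_list, List.flatMap_map]
  unfold parseCNF rename
  rw [hf, splitB_flatMap, List.map_map]
  congr 1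
  funext c
  simp only [Function.comp_apply]
  rw [hcl, splitB_flatMap, List.map_map]
  congr 1
  funext l
  simp only [Function.comp_apply]
  exact parseLit_eq _ _

end TM

end Pool.Agent.PartSep
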