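import Pool.Agent.Lib_MP_42fe4d_lc.TM.FPFold

/-!
From polynomial time functions on strings to Mathlib's `TM2ComputableInPolyTime`.
-/

namespace Pool.Agent.PartSep.TM

open Prog Rep Turing

set_option synthInstance.maxSize 2000

theorem ok_map {K K' A : Type} {Γ : K' → Type} {ι : ∀ k, A → Γ k} {π : ∀ k, Γ k → A}
    (e : K → K') (h : ∀ k a, π (e k) (ι (e k) a) = a) (p : Prog K A) : Ok ι π (p.map e) := by
  induction p with
  | skip => trivial
  | push k a => exact h k a
  | seq p q ih1 ih2 => exact ⟨ih1, ih2⟩
  | case k c ih => exact fun o => ih o
  | loop k c ih => exact fun a => ih a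

/-- move the contents of `k` to `s`, reversing it -/
theorem runs_rev' {K A : Type} [DecidableEq K] (k s : K) (hks : k ≠ s) (c : A → Prog K A)
    (l : List A) (hc : ∀ a ∈ l, c a = .push s a) : ∀ (S : K → List A), S k = l →
    Runs (.loop k c) S
      (Function.update (Function.update S k []) s (l.reverse ++ S s)) (3 * l.length + 2) := by
  induction l with
  | nil =>
    intro S hS
    refine (Runs.loop_nil hS).congr ?_
    funext j
    by_cases h1 : j = s
    · subst h1; simp
    · rw [Function.update_of_ne h1]
      by_cases h2 : j = k
      · subst h2; simp [hS]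
      · rw [Function.update_of_ne h2]
  | cons a l ih =>
    intro S hS
    have h1 := Runs.push s a (Function.update S k l)
    rw [← hc a (by simp)] at h1
    have h2 := ih (fun b hb => hc b (by simp [hb])) (Function.update (Function.update S k l) s
      (a :: Function.update S k l s)) (by rw [Function.update_of_ne hks]; simp)
    refine ((Runs.loop_cons hS h1 h2).mono (by simp; omega)).congr ?_
    funext j
    by_cases h1 : j = s
    · subst h1
      simp [Function.update_of_ne hks.symm]
    · rw [Function.update_of_ne h1, Function.update_of_ne h1]
      by_cases h2 : j = k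
      · subst h2; simp
      · rw [Function.update_of_ne h2, Function.update_of_ne h2, Function.update_of_ne h1,
          Function.update_of_ne h2]

/-- The stacks of the final machine. -/
inductive Stk (T : Type) : Type
  | inp | out | tmp | x | y | z (t : T)
  deriving DecidableEq, Fintype

section Assemble

variable {αΓ βΓ : Type} (enc : αΓ → Sym) (dec : Sym → βΓ) (emb : βΓ → Sym)

/-- alphabets of the final machine -/
def gam (αΓ βΓ : Type) {T : Type} : Stk T → Type
  | .inp => αΓ
  | .out => βΓ
  | _ => Sym

def iota [Inhabited αΓ] {T : Type} : ∀ k : Stk T, Sym → gam αΓ βΓ k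
  | .inp => fun _ => (default : αΓ)
  | .out => dec
  | .tmp => id
  | .x => id
  | .y => id
  | .z _ => id

def pi' {T : Type} : ∀ k : Stk T, gam αΓ βΓ k → Sym
  | .inp => enc
  | .out => emb
  | .tmp => id
  | .x => id
  | .y => id
  | .z _ => id

open Classical in
/-- the program of the final machine -/
noncomputable def total {T : Type} (P : Prog (Unit ⊕ Unit ⊕ T) Sym) : Prog (Stk T) Sym :=
  .seq (.loop .inp (fun a => .push .tmp a)) <|
  .seq (.loop .tmp (fun a => .push .x a)) <|
  .seq (P.map (Sum.elim (fun _ => .x) (Sum.elim (fun _ => .y) .z))) <|
  .seq (.loop .x (fun _ => .skip)) <|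
  .seq (.loop .y (fun a => .push .tmp a))
    (.loop .tmp (fun a => if emb (dec a) = a then .push .out a else .skip))

end Assemble

/-- A function on strings in `FP`, together with codings of the input and output alphabets, gives
a polynomial time TM2 machine. -/
theorem FP.toTM2 {αΓ βΓ : Type} [Fintype αΓ] [Inhabited αΓ] (enc : αΓ → Sym)
    (dec : Sym → βΓ) (emb : βΓ → Sym) (hemb : ∀ b, dec (emb b) = b)
    {f : List Sym → List Sym} (hf : FP f)
    {α β : Type} {ea : α → List αΓ} {eb : β → List βΓ} {F : α → β}
    (hF : ∀ a, f ((ea a).map enc) = (eb (F a)).map emb) :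
    Nonempty (TM2ComputableInPolyTime ea eb F) := by
  classical
  obtain ⟨q, hq⟩ := hf.size_le
  obtain ⟨n, P, p, hP⟩ := hf
  change Prog (Unit ⊕ Unit ⊕ Fin n) Sym at P
  have hinj : Function.Injective emb := Function.LeftInverse.injective hemb
  let Ptot := total dec emb P
  let ι := iota (αΓ := αΓ) dec (T := Fin n)
  let π := pi' enc emb (T := Fin n)
  let fin : TM2.Stmt (gam αΓ βΓ (T := Fin n)) (Option (Lab Ptot)) (Option Sym) :=
    .load (fun _ => none) .halt
  let M : Option (Lab Ptot) → TM2.Stmt (gam αΓ βΓ (T := Fin n)) (Option (Lab Ptot)) (Option Sym) :=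
    fun l => match l with
    | none => Prog.comp ι π Ptot some fin
    | some l => body ι π Ptot some fin l
  have hΛ : Finite (Option (Lab Ptot)) := inferInstance
  let tm : FinTM2 :=
    { K := Stk (Fin n)
      k₀ := .inp
      k₁ := .out
      Γ := gam αΓ βΓ
      Λ := Option (Lab Ptot)
      main := none
      ΛFin := Fintype.ofFinite _
      σ := Option Sym
      initialState := none
      Γk₀Fin := inferInstanceAs (Fintype αΓ)
      m := M }
  have hinjE : Function.Injective (Sum.elim (fun _ => Stk.x) (Sum.elim (fun _ => Stk.y) Stk.z) :
      Unit ⊕ Unit ⊕ Fin n → Stk (Fin n)) := by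
    rintro (a | a | a) (b | b | b) hab <;> cases hab <;> rfl
  -- the run of the program
  have hrun : ∀ w : List Sym, (∀ a ∈ f w, emb (dec a) = a) →
      Runs Ptot (fun k => if k = .inp then w else []) (fun k => if k = .out then f w else [])
        ((12 * Polynomial.X + p + 6 * q + 12 : Polynomial ℕ).eval w.length) := by
    intro w hw
    let St : List Sym → List Sym → List Sym → List Sym → List Sym → Stk (Fin n) → List Sym :=
      fun a b c d e k => match k with
      | .inp => a
      | .out => b
      | .tmp => c
      | .x => d
      | .y => e
      | .z _ => []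
    have g1 : Runs (.loop Stk.inp (fun a => .push Stk.tmp a)) (St w [] [] [] [])
        (St [] [] w.reverse [] []) (3 * w.length + 2) := by
      have g1' := runs_rev (K := Stk (Fin n)) Stk.inp Stk.tmp (by intro h; cases h) w
        (St w [] [] [] []) rfl
      refine g1'.congr ?_
      funext k
      cases k <;> simp [St, Function.update]
    have g2 : Runs (.loop Stk.tmp (fun a => .push Stk.x a)) (St [] [] w.reverse [] [])
        (St [] [] [] w []) (3 * w.length + 2) := by
      have g2' := runs_rev (K := Stk (Fin n)) Stk.tmp Stk.x (by intro h; cases h) w.reverse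
        (St [] [] w.reverse [] []) rfl
      refine (g2'.mono (by simp)).congr ?_
      funext k
      cases k <;> simp [St, Function.update]
    have g3 : Runs (P.map (Sum.elim (fun _ => Stk.x) (Sum.elim (fun _ => Stk.y) Stk.z)))
        (St [] [] [] w []) (St [] [] [] w (f w)) (p.eval w.length) := by
      have := hP w trivial
      rw [size_list] at this
      refine this.map hinjE ?_ ?_ ?_
      · rintro (a | a | a) <;> rfl
      · rintro (a | a | a) <;> rfl
      · rintro (_ | _ | _ | _ | _ | t) hk
        · rfl
        · rfl
        · rfl
        · rfl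
        · exact absurd rfl (hk (Sum.inr (Sum.inl ())))
        · rfl
    have g4 : Runs (.loop Stk.x (fun _ => .skip)) (St [] [] [] w (f w))
        (St [] [] [] [] (f w)) (2 * w.length + 2) := by
      have g4' := runs_clear1 (K := Stk (Fin n)) Stk.x w (St [] [] [] w (f w)) rfl
      refine g4'.congr ?_
      funext k
      cases k <;> simp [St, Function.update]
    have g5 : Runs (.loop Stk.y (fun a => .push Stk.tmp a)) (St [] [] [] [] (f w))
        (St [] [] (f w).reverse [] []) (3 * (f w).length + 2) := by
      have g5' := runs_rev (K := Stk (Fin n)) Stk.y Stk.tmp (by intro h; cases h) (f w)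
        (St [] [] [] [] (f w)) rfl
      refine g5'.congr ?_
      funext k
      cases k <;> simp [St, Function.update]
    have g6 : Runs (.loop Stk.tmp (fun a => if emb (dec a) = a then .push Stk.out a else .skip))
        (St [] [] (f w).reverse [] []) (St [] (f w) [] [] []) (3 * (f w).length + 2) := by
      have g6' := runs_rev' (K := Stk (Fin n)) Stk.tmp Stk.out (by intro h; cases h)
        (fun a => if emb (dec a) = a then .push Stk.out a else .skip) (f w).reverse
        (fun a ha => if_pos (hw a (by simpa using ha))) (St [] [] (f w).reverse [] []) rfl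
      refine (g6'.mono (by simp)).congr ?_
      funext k
      cases k <;> simp [St, Function.update]
    refine ((g1.seq (g2.seq (g3.seq (g4.seq (g5.seq g6))))).congr₂ ?_ ?_).mono ?_
    · funext k
      cases k <;> simp [St]
    · funext k
      cases k <;> simp [St]
    · have := hq w
      rw [size_list, size_list] at this
      simp only [Polynomial.eval_add, Polynomial.eval_mul, Polynomial.eval_ofNat,
        Polynomial.eval_X]
      omega
  have hok : Ok ι π Ptot := by
    refine ⟨fun a => rfl, fun a => rfl, ok_map _ ?_ P, fun a => trivial, fun a => rfl, ?_⟩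
    · rintro (a | a | a) b <;> rfl
    · intro a
      change Ok ι π (if emb (dec a) = a then .push .out a else .skip)
      split_ifs with h
      · exact h
      · trivial
  refine ⟨{
    tm := tm
    inputAlphabet := Equiv.refl αΓ
    outputAlphabet := Equiv.refl βΓ
    time := 1 + (12 * Polynomial.X + p + 6 * q + 12 : Polynomial ℕ)
    outputsFun := fun a => Classical.choice ?_ }⟩
  obtain ⟨t, ht, hr⟩ := hrun ((ea a).map enc) (by
    intro b hb
    rw [hF] at hb
    obtain ⟨c, _, rfl⟩ := List.mem_map.1 hb
    rw [hemb])
  rw [List.length_map] at ht
  obtain ⟨v', T', m, hm, hT', hst⟩ := compile_correct (M := M) ι π hr hok some fin (fun l => rfl) none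
    (initList tm (List.map (Equiv.refl αΓ).invFun (ea a))).stk (by
      funext k
      cases k
      · change List.map enc (List.map (Equiv.refl αΓ).invFun (ea a)) = _
        simp
      all_goals rfl)
  refine ⟨⟨⟨1 + m, ?_⟩, ?_⟩⟩
  · have h0 : Steps M 1 (initList tm (List.map (Equiv.refl αΓ).invFun (ea a)))
        (TM2.stepAux (Prog.comp ι π Ptot some fin) none
          (initList tm (List.map (Equiv.refl αΓ).invFun (ea a))).stk) := rfl
    have h1 := h0.trans hst
    have hfinal : TM2.stepAux fin v' T' =
        haltList tm (List.map (Equiv.refl βΓ).invFun (eb (F a))) := by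
      change (⟨none, none, T'⟩ : TM2.Cfg _ _ _) = _
      have : T' = (haltList tm (List.map (Equiv.refl βΓ).invFun (eb (F a)))).stk := by
        funext k
        have hk := congrFun hT' k
        cases k
        · change List.map enc (T' .inp) = [] at hk
          have : T' .inp = [] := List.map_eq_nil_iff.1 hk
          rw [this]; rfl
        · change List.map emb (T' .out) = f ((ea a).map enc) at hk
          rw [hF] at hk
          have : T' .out = eb (F a) := List.map_injective_iff.2 hinj hk
          rw [this]
          change _ = List.map (Equiv.refl βΓ).invFun (eb (F a))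
          simp
        all_goals
          change List.map _root_.id _ = [] at hk
          rw [List.map_id] at hk
          rw [hk]; rfl
      rw [this]
      rfl
    rw [hfinal] at h1
    exact h1
  · simp only [Polynomial.eval_add, Polynomial.eval_one]
    simp only [Polynomial.eval_add] at ht
    omega

end Pool.Agent.PartSep.TM
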