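import Pool.Agent.Lib_MP_42fe4d_lc.TM.FPGraph

/-!
Codes of formulas and of instances.
-/

namespace Pool.Agent.PartSep

open N487b59b3

namespace TM

open Prog Rep

set_option synthInstance.maxSize 2000

variable {E F G H : Type} [Rep E] [Rep F] [Rep G] [Rep H]

/-- the code of the weight -/
def wcode : List Sym := (bitEncode ((1 : ℚ) / 3)).map bs

theorem outS_eq (φ : CNF Name) : outS wcode φ = (encodeInstance (red φ)).map bs := by
  classical
  unfold encodeInstance outS
  rw [bitEncode_list]
  have h1 : (List.ofFn fun i => (List.ofFn fun j => decide ((red φ).G.Adj i j), (red φ).x i)) =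
      (verts φ).map (fun p => ((verts φ).map (fun q => decide (VAdj (6 * φ.length + 7) p q)),
        (1 : ℚ) / 3)) := by
    apply List.ext_getElem
    · simp [red]
    · intro i hi hi'
      simp only [List.getElem_ofFn, List.getElem_map, Prod.mk.injEq]
      refine ⟨?_, rfl⟩
      apply List.ext_getElem
      · simp [red]
      · intro j hj hj'
        simp only [List.getElem_ofFn, List.getElem_map]
        rfl
  rw [h1, vertsL_eq, List.flatMap_map, List.flatMap_map]
  congr 1
  funext p
  rw [bitEncode_prod, bitEncode_list, List.flatMap_map, List.flatMap_map]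
  congr 3
  congr 1
  congr 1
  funext q
  rw [bitEncode_bool]
  congr 3
  rw [Bool.eq_iff_iff, adjB_iff]
  simp

end TM

/-- All clique inequalities hold when `x = 1/3` and the graph has no `K₄`. -/
theorem clique_ineq {s : SepInstance} (h1 : ∀ v, s.x v = 1 / 3) (h2 : s.G.CliqueFree 4)
    (K : Finset (Fin s.n)) (hK : s.G.IsClique (K : Set (Fin s.n))) : ∑ v ∈ K, s.x v ≤ 1 := by
  have hcard : K.card < 4 := by
    by_contra hcon
    exact (h2.mono (by omega : 4 ≤ K.card)) K ⟨hK, rfl⟩
  have : K.card ≤ 3 := by omega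
  have h3 : (K.card : ℚ) ≤ 3 := by exact_mod_cast this
  simp only [h1, Finset.sum_const, nsmul_eq_mul]
  linarith

open TM in
/-- SAT reduces in polynomial time to the separation problem of partitionable graph inequalities. -/
theorem sat_reduces : ∃ f : CNF ℕ → SepInstance,
    Nonempty (Turing.TM2ComputableInPolyTime (bitEncode : CNF ℕ → List Bool) encodeInstance f) ∧
      ∀ φ : CNF ℕ,
        (∀ v, (f φ).x v = 1 / 3) ∧ (f φ).G.CliqueFree 4 ∧
        (∀ K : Finset (Fin (f φ).n), (f φ).G.IsClique (K : Set (Fin (f φ).n)) →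
          ∑ v ∈ K, (f φ).x v ≤ 1) ∧
        (φ.Satisfiable ↔ ∃ I, (f φ).Violates I) := by
  refine ⟨fun φ => red (rename natName φ), ?_, fun φ => ⟨fun _ => rfl, red_cliqueFree _,
    clique_ineq (fun _ => rfl) (red_cliqueFree _), ?_⟩⟩
  · refine FP.toTM2 (αΓ := Bool) (βΓ := Bool) bs sb bs sb_bs
      (FP.comp (FP.outS wcode) FP.parseCNF) (fun φ => ?_)
    rw [parseCNF_eq, outS_eq]
  · rw [← red_correct, sat_rename natName_injective]

end Pool.Agent.PartSep
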