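import Pool.Agent.Lib_MP_42fe4d_lc.TM.ProgLib

/-!
Polynomial time functions between types represented by tuples of strings.
-/

namespace Pool.Agent.PartSep.TM

open Prog

/-- The internal alphabet. -/
inductive Sym
  | o | i | p | n | s | c | v | u | x | y
  deriving DecidableEq, Fintype, Inhabited

/-- Types whose elements are represented by finite tuples of strings. -/
class Rep (E : Type) where
  ix : Type
  [fin : Fintype ix]
  [dec : DecidableEq ix]
  rep : E → ix → List Sym

attribute [instance_reducible, instance] Rep.fin Rep.dec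

open Rep

/-- The size of the representation. -/
def size {E : Type} [Rep E] (x : E) : ℕ := ∑ i, (rep x i).length

/-- the stacks: input, output and scratch stacks -/
abbrev mk {I J T : Type} (x : I → List Sym) (y : J → List Sym) (z : T → List Sym) :
    I ⊕ J ⊕ T → List Sym := Sum.elim x (Sum.elim y z)

/-- empty stacks -/
abbrev emp {I : Type} : I → List Sym := fun _ => []

/-- `f` is computed in polynomial time with scratch stacks `τ` on the domain `D`. -/
def FPτ (τ : Type) [Fintype τ] [DecidableEq τ] {E F : Type} [Rep E] [Rep F] (D : E → Prop)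
    (f : E → F) : Prop :=
  ∃ (P : Prog (ix E ⊕ ix F ⊕ τ) Sym) (p : Polynomial ℕ), ∀ x, D x →
    P.Runs (mk (rep x) emp emp) (mk (rep x) (rep (f x)) emp) (p.eval (size x))

/-- `f` is computed in polynomial time on the domain `D`. -/
def FPon {E F : Type} [Rep E] [Rep F] (D : E → Prop) (f : E → F) : Prop :=
  ∃ n : ℕ, FPτ (Fin n) D f

/-- `f` is computed in polynomial time. -/
def FP {E F : Type} [Rep E] [Rep F] (f : E → F) : Prop := FPon (fun _ => True) f

theorem poly_mono (p : Polynomial ℕ) {a b : ℕ} (h : a ≤ b) : p.eval a ≤ p.eval b := by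
  rw [Polynomial.eval_eq_sum_range, Polynomial.eval_eq_sum_range]
  gcongr

variable {E F G : Type} [Rep E] [Rep F] [Rep G]

theorem FPτ.toFP {τ : Type} [Fintype τ] [DecidableEq τ] {D : E → Prop} {f : E → F}
    (h : FPτ τ D f) : FPon D f := by
  obtain ⟨P, p, hP⟩ := h
  refine ⟨Fintype.card τ, ?_⟩
  let eq := Fintype.equivFin τ
  let e : ix E ⊕ ix F ⊕ τ → ix E ⊕ ix F ⊕ Fin (Fintype.card τ) :=
    Sum.elim Sum.inl (Sum.elim (fun j => Sum.inr (Sum.inl j)) (fun t => Sum.inr (Sum.inr (eq t))))
  have he : Function.Injective e := by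
    rintro (a | a | a) (b | b | b) hab <;> simp_all [e]
  refine ⟨P.map e, p, fun x hx => (hP x hx).map he ?_ ?_ ?_⟩
  · rintro (a | a | a) <;> rfl
  · rintro (a | a | a) <;> rfl
  · rintro (a | a | a) hk
    · exact absurd rfl (hk (Sum.inl a))
    · exact absurd rfl (hk (Sum.inr (Sum.inl a)))
    · refine absurd ?_ (hk (Sum.inr (Sum.inr (eq.symm a))))
      simp [e]

theorem sum_mk {I J T : Type} [Fintype I] [Fintype J] [Fintype T] (x : I → List Sym)
    (y : J → List Sym) (z : T → List Sym) :
    ∑ k, (mk x y z k).length = ∑ k, (x k).length + (∑ k, (y k).length + ∑ k, (z k).length) := by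
  rw [Fintype.sum_sum_type, Fintype.sum_sum_type]
  rfl

theorem FPτ.size_le {τ : Type} [Fintype τ] [DecidableEq τ] {D : E → Prop} {f : E → F}
    (h : FPτ τ D f) : ∃ p : Polynomial ℕ, ∀ x, D x → size (f x) ≤ p.eval (size x) := by
  obtain ⟨P, p, hP⟩ := h
  refine ⟨p, fun x hx => ?_⟩
  obtain ⟨t, ht, hr⟩ := hP x hx
  have := hr.size_le
  rw [sum_mk, sum_mk] at this
  simp only [List.length_nil, Finset.sum_const_zero, add_zero] at this
  unfold size at *
  omega

theorem FPon.size_le {D : E → Prop} {f : E → F} (h : FPon D f) :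
    ∃ p : Polynomial ℕ, ∀ x, D x → size (f x) ≤ p.eval (size x) := by
  obtain ⟨n, h⟩ := h
  exact h.size_le

theorem FP.size_le {f : E → F} (h : FP f) :
    ∃ p : Polynomial ℕ, ∀ x, size (f x) ≤ p.eval (size x) := by
  obtain ⟨p, hp⟩ := FPon.size_le h
  exact ⟨p, fun x => hp x trivial⟩

theorem FPon.mono {D D' : E → Prop} {f : E → F} (h : FPon D f) (hD : ∀ x, D' x → D x) :
    FPon D' f := by
  obtain ⟨n, P, p, hP⟩ := h
  exact ⟨n, P, p, fun x hx => hP x (hD x hx)⟩

theorem FP.on {D : E → Prop} {f : E → F} (h : FP f) : FPon D f :=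
  FPon.mono h (fun _ _ => trivial)

theorem FPon.congr {D : E → Prop} {f g : E → F} (h : FPon D f) (hfg : ∀ x, D x → f x = g x) :
    FPon D g := by
  obtain ⟨n, P, p, hP⟩ := h
  exact ⟨n, P, p, fun x hx => hfg x hx ▸ hP x hx⟩

theorem FP.congr {f g : E → F} (h : FP f) (hfg : ∀ x, f x = g x) : FP g :=
  FPon.congr h (fun x _ => hfg x)

/-- Only the representation matters. -/
theorem FPon.of_rep {F' : Type} [Rep F'] {D : E → Prop} {f : E → F} {g : E → F'}
    (e : ix F' ≃ ix F) (h : FPon D f) (hfg : ∀ x, D x → ∀ j, rep (g x) j = rep (f x) (e j)) :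
    FPon D g := by
  obtain ⟨n, P, p, hP⟩ := h
  let e' : ix E ⊕ ix F ⊕ Fin n → ix E ⊕ ix F' ⊕ Fin n :=
    Sum.elim Sum.inl (Sum.elim (fun j => Sum.inr (Sum.inl (e.symm j)))
      (fun t => Sum.inr (Sum.inr t)))
  have he : Function.Injective e' := by
    rintro (a | a | a) (b | b | b) hab
    · cases hab; rfl
    · cases hab
    · cases hab
    · cases hab
    · have : e.symm a = e.symm b := by simpa [e'] using hab
      rw [e.symm.injective this]
    · cases hab
    · cases hab
    · cases hab
    · cases hab; rfl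
  refine ⟨n, P.map e', p, fun x hx => (hP x hx).map he ?_ ?_ ?_⟩
  · rintro (a | a | a) <;> rfl
  · rintro (a | a | a)
    · rfl
    · change rep (g x) (e.symm a) = rep (f x) a
      rw [hfg x hx, Equiv.apply_symm_apply]
    · rfl
  · rintro (a | a | a) hk
    · rfl
    · refine absurd ?_ (hk (Sum.inr (Sum.inl (e a))))
      simp [e']
    · rfl

theorem update_mk_right {I J T : Type} [DecidableEq I] [DecidableEq J] [DecidableEq T]
    (x : I → List Sym) (y : J → List Sym) (z : T → List Sym) (j : J) (l : List Sym) :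
    Function.update (mk x y z) (Sum.inr (Sum.inl j)) l = mk x (Function.update y j l) z := by
  funext k
  rcases k with k | k | k
  · rw [Function.update_of_ne (by simp)]; rfl
  · by_cases h : k = j
    · subst h; simp
    · rw [Function.update_of_ne (by simpa using h)]
      simp [Function.update_of_ne h]
  · rw [Function.update_of_ne (by simp)]; rfl

/-- Projections and rearrangements. -/
theorem FPon.proj {D : E → Prop} {f : E → F} (e : ix F → ix E)
    (h : ∀ x, D x → ∀ j, rep (f x) j = rep x (e j)) : FPon D f := by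
  classical
  apply FPτ.toFP (τ := Unit)
  refine ⟨seqList (fun j => copy (Sum.inl (e j)) (Sum.inr (Sum.inl j)) (Sum.inr (Sum.inr ())))
    (Finset.univ : Finset (ix F)).toList,
    Polynomial.C (Fintype.card (ix F)) * (7 * Polynomial.X + 4), fun x hx => ?_⟩
  have key := runs_seqList
    (fun j => copy (Sum.inl (e j) : ix E ⊕ ix F ⊕ Unit) (Sum.inr (Sum.inl j))
      (Sum.inr (Sum.inr ())))
    (fun D => mk (rep x) (fun j => if D j then rep x (e j) else []) emp)
    (fun j => 7 * (rep x (e j)).length + 4) ?_ (Finset.univ : Finset (ix F)).toList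
    (Finset.nodup_toList _) (fun _ => False) (by simp)
  · refine (key.mono ?_).congr₂ (by simp) ?_
    · rw [Finset.sum_map_toList]
      have : ∀ j : ix F, 7 * (rep x (e j)).length + 4 ≤ 7 * size x + 4 := by
        intro j
        have : (rep x (e j)).length ≤ size x :=
          Finset.single_le_sum (f := fun i => (rep x i).length) (fun _ _ => Nat.zero_le _)
            (Finset.mem_univ (e j))
        omega
      calc ∑ j, (7 * (rep x (e j)).length + 4) ≤ ∑ _j : ix F, (7 * size x + 4) :=
            Finset.sum_le_sum (fun j _ => this j)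
        _ = _ := by simp [Finset.sum_const, Finset.card_univ]
    · funext k
      rcases k with k | k | k
      · rfl
      · simp [h x hx]
      · rfl
  · intro D j hj
    have := runs_copy (Sum.inl (e j) : ix E ⊕ ix F ⊕ Unit) (Sum.inr (Sum.inl j))
      (Sum.inr (Sum.inr ())) (by simp) (by simp) (by simp)
      (mk (rep x) (fun j => if D j then rep x (e j) else []) emp) rfl
    refine this.congr ?_
    rw [update_mk_right]
    congr 2
    funext i
    by_cases hi : i = j
    · subst hi
      simp [hj]
    · simp [Function.update_of_ne hi, hi]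

theorem FP.proj {f : E → F} (e : ix F → ix E)
    (h : ∀ x, ∀ j, rep (f x) j = rep x (e j)) : FP f := FPon.proj e (fun x _ => h x)

theorem FP.id : FP (fun x : E => x) := FP.proj _root_.id (fun _ _ => rfl)

instance : Rep (List Sym) where
  ix := Unit
  rep l _ := l

instance : Rep Unit where
  ix := Empty
  rep _ i := i.elim

instance : Rep (E × F) where
  ix := ix E ⊕ ix F
  rep x := Sum.elim (rep x.1) (rep x.2)

theorem size_list (l : List Sym) : size l = l.length := by
  change ∑ _i : Unit, l.length = l.length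
  simp

theorem size_pair (x : E × F) : size x = size x.1 + size x.2 := by
  change ∑ i : ix E ⊕ ix F, ((Sum.elim (rep x.1) (rep x.2)) i).length = _
  rw [Fintype.sum_sum_type]
  rfl

theorem FP.fst : FP (Prod.fst : E × F → E) := FP.proj (Sum.inl) (fun _ _ => rfl)

theorem FP.snd : FP (Prod.snd : E × F → F) := FP.proj (Sum.inr) (fun _ _ => rfl)

/-- clear the stacks `d j` -/
theorem runs_clear {K J : Type} [DecidableEq K] [DecidableEq J] [Fintype J] (d : J → K)
    (hd : Function.Injective d) (S S' : K → List Sym) (h1 : ∀ j, S' (d j) = [])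
    (h2 : ∀ k, (∀ j, d j ≠ k) → S' k = S k) :
    Runs (seqList (fun j => .loop (d j) (fun _ => .skip)) (Finset.univ : Finset J).toList) S S'
      (2 * ∑ j, (S (d j)).length + 2 * Fintype.card J) := by
  classical
  have key := runs_seqList (A := Sym)
    (fun j => .loop (d j) (fun _ => .skip))
    (fun D k => if ∃ j, d j = k ∧ D j then [] else S k)
    (fun j => 2 * (S (d j)).length + 2) ?_ (Finset.univ : Finset J).toList
    (Finset.nodup_toList _) (fun _ => False) (by simp)
  · refine (key.mono ?_).congr₂ (by funext k; simp) ?_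
    · rw [Finset.sum_map_toList]
      rw [Finset.sum_add_distrib, ← Finset.mul_sum]
      simp [Finset.card_univ, mul_comm]
    · funext k
      by_cases hk : ∃ j, d j = k
      · obtain ⟨j, rfl⟩ := hk
        rw [h1]
        simp
      · push Not at hk
        rw [h2 k hk, if_neg]
        rintro ⟨j, hj, _⟩
        exact hk j hj
  · intro D j hj
    set St : K → List Sym := fun k => if ∃ j, d j = k ∧ D j then [] else S k with hSt
    have hval : St (d j) = S (d j) := by
      simp only [hSt]
      rw [if_neg]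
      rintro ⟨j', hj', hD⟩
      rw [hd hj'] at hD
      exact hj hD
    have := runs_clear1 (d j) _ St hval
    refine this.congr ?_
    funext k
    by_cases hk : k = d j
    · subst hk
      rw [Function.update_self, if_pos ⟨j, rfl, Or.inl rfl⟩]
    · rw [Function.update_of_ne hk]
      have : (∃ j_1, d j_1 = k ∧ (j_1 = j ∨ D j_1)) ↔ (∃ j_1, d j_1 = k ∧ D j_1) := by
        constructor
        · rintro ⟨j', hj', h | h⟩
          · subst h; exact absurd hj'.symm hk
          · exact ⟨j', hj', h⟩
        · rintro ⟨j', hj', h⟩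
          exact ⟨j', hj', Or.inr h⟩
      simp only [this, hSt]

/-- move the stacks `d j` to `d' j` -/
theorem runs_moveAll {K J : Type} [DecidableEq K] [DecidableEq J] [Fintype J] (d d' : J → K)
    (s : K) (hd : Function.Injective d) (hd' : Function.Injective d')
    (hdd : ∀ i j, d i ≠ d' j) (hs : ∀ j, d j ≠ s) (hs' : ∀ j, d' j ≠ s)
    (S S' : K → List Sym) (hSs : S s = []) (h0 : ∀ j, S (d' j) = [])
    (h1 : ∀ j, S' (d j) = []) (h1' : ∀ j, S' (d' j) = S (d j))
    (h2 : ∀ k, (∀ j, d j ≠ k) → (∀ j, d' j ≠ k) → S' k = S k) :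
    Runs (seqList (fun j => move (d j) (d' j) s) (Finset.univ : Finset J).toList) S S'
      (6 * ∑ j, (S (d j)).length + 4 * Fintype.card J) := by
  classical
  have key := runs_seqList (A := Sym)
    (fun j => move (d j) (d' j) s)
    (fun D k => if ∃ j, d j = k ∧ D j then [] else
      if h : ∃ j, d' j = k ∧ D j then S (d h.choose) else S k)
    (fun j => 6 * (S (d j)).length + 4) ?_ (Finset.univ : Finset J).toList
    (Finset.nodup_toList _) (fun _ => False) (by simp)
  · refine (key.mono ?_).congr₂ (by funext k; simp) ?_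
    · rw [Finset.sum_map_toList]
      rw [Finset.sum_add_distrib, ← Finset.mul_sum]
      simp [Finset.card_univ, mul_comm]
    · funext k
      by_cases hk : ∃ j, d j = k
      · obtain ⟨j, rfl⟩ := hk
        rw [h1]
        simp
      · push Not at hk
        rw [if_neg]
        swap
        · rintro ⟨j, hj, _⟩
          exact hk j hj
        by_cases hk' : ∃ j, d' j = k
        · obtain ⟨j, rfl⟩ := hk'
          have hex : ∃ j_1, d' j_1 = d' j ∧ (j_1 ∈ (Finset.univ : Finset J).toList ∨ False) :=
            ⟨j, rfl, by simp⟩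
          rw [dif_pos hex, hd' hex.choose_spec.1, h1']
        · push Not at hk'
          rw [dif_neg, h2 k hk hk']
          rintro ⟨j, hj, _⟩
          exact hk' j hj
  · intro D j hj
    set St : K → List Sym := fun k => if ∃ j, d j = k ∧ D j then [] else
      if h : ∃ j, d' j = k ∧ D j then S (d h.choose) else S k with hSt
    have hval : St (d j) = S (d j) := by
      simp only [hSt]
      rw [if_neg, dif_neg]
      · rintro ⟨j', hj', hD⟩
        exact hdd _ _ hj'.symm
      · rintro ⟨j', hj', hD⟩
        rw [hd hj'] at hD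
        exact hj hD
    have hval' : St (d' j) = [] := by
      simp only [hSt]
      rw [if_neg, dif_neg, h0]
      · rintro ⟨j', hj', hD⟩
        rw [hd' hj'] at hD
        exact hj hD
      · rintro ⟨j', hj', hD⟩
        exact hdd _ _ hj'
    have hvals : St s = [] := by
      simp only [hSt]
      rw [if_neg, dif_neg, hSs]
      · rintro ⟨j', hj', hD⟩
        exact hs' _ hj'
      · rintro ⟨j', hj', hD⟩
        exact hs _ hj'
    have := runs_move (d j) (d' j) s (hs j).symm (hs' j).symm (hdd j j) St hvals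
    rw [hval, hval'] at this
    refine this.congr ?_
    funext k
    by_cases hk : k = d' j
    · subst hk
      rw [Function.update_self]
      have hex : ∃ j_1, d' j_1 = d' j ∧ (j_1 = j ∨ D j_1) := ⟨j, rfl, Or.inl rfl⟩
      rw [if_neg, dif_pos hex, hd' hex.choose_spec.1, List.append_nil]
      rintro ⟨j', hj', hD⟩
      exact hdd _ _ hj'
    · rw [Function.update_of_ne hk]
      by_cases hk2 : k = d j
      · subst hk2
        rw [Function.update_self, if_pos ⟨j, rfl, Or.inl rfl⟩]
      · rw [Function.update_of_ne hk2]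
        simp only [hSt]
        have e1 : (∃ j_1, d j_1 = k ∧ (j_1 = j ∨ D j_1)) ↔ (∃ j_1, d j_1 = k ∧ D j_1) := by
          constructor
          · rintro ⟨j', hj', h | h⟩
            · subst h; exact absurd hj'.symm hk2
            · exact ⟨j', hj', h⟩
          · rintro ⟨j', hj', h⟩
            exact ⟨j', hj', Or.inr h⟩
        simp only [e1]
        by_cases hex : ∃ j_1, d' j_1 = k ∧ D j_1
        · obtain ⟨i, hi, hDi⟩ := hex
          have hex1 : ∃ j_1, d' j_1 = k ∧ D j_1 := ⟨i, hi, hDi⟩
          have hex2 : ∃ j_1, d' j_1 = k ∧ (j_1 = j ∨ D j_1) := ⟨i, hi, Or.inr hDi⟩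
          rw [dif_pos hex1, dif_pos hex2]
          have : hex1.choose = hex2.choose :=
            hd' (hex1.choose_spec.1.trans hex2.choose_spec.1.symm)
          rw [this]
        · rw [dif_neg hex, dif_neg]
          rintro ⟨i, hi, h | h⟩
          · subst h; exact hk hi.symm
          · exact hex ⟨i, hi, h⟩

/-- Composition. -/
theorem FPon.comp {D : E → Prop} {D' : F → Prop} {g : F → G} {f : E → F} (hg : FPon D' g)
    (hf : FPon D f) (hD : ∀ x, D x → D' (f x)) : FPon D (fun x => g (f x)) := by
  obtain ⟨qf, hqf⟩ := hf.size_le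
  obtain ⟨nf, Pf, pf, hPf⟩ := hf
  obtain ⟨ng, Pg, pg, hPg⟩ := hg
  apply FPτ.toFP (τ := ix F ⊕ Fin nf ⊕ Fin ng)
  let e1 : ix E ⊕ ix F ⊕ Fin nf → ix E ⊕ ix G ⊕ (ix F ⊕ Fin nf ⊕ Fin ng) :=
    Sum.elim Sum.inl (Sum.elim (fun j => Sum.inr (Sum.inr (Sum.inl j)))
      (fun t => Sum.inr (Sum.inr (Sum.inr (Sum.inl t)))))
  have he1 : Function.Injective e1 := by
    rintro (a | a | a) (b | b | b) hab <;> cases hab <;> rfl
  let e2 : ix F ⊕ ix G ⊕ Fin ng → ix E ⊕ ix G ⊕ (ix F ⊕ Fin nf ⊕ Fin ng) :=
    Sum.elim (fun j => Sum.inr (Sum.inr (Sum.inl j))) (Sum.elim (fun j => Sum.inr (Sum.inl j))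
      (fun t => Sum.inr (Sum.inr (Sum.inr (Sum.inr t)))))
  have he2 : Function.Injective e2 := by
    rintro (a | a | a) (b | b | b) hab <;> cases hab <;> rfl
  let d : ix F → ix E ⊕ ix G ⊕ (ix F ⊕ Fin nf ⊕ Fin ng) := fun j => Sum.inr (Sum.inr (Sum.inl j))
  have hd : Function.Injective d := by
    intro a b hab; simpa [d] using hab
  refine ⟨.seq (Pf.map e1) (.seq (Pg.map e2)
    (seqList (fun j => .loop (d j) (fun _ => .skip)) (Finset.univ : Finset (ix F)).toList)),
    pf + (pg.comp qf + (2 * qf + Polynomial.C (2 * Fintype.card (ix F)))), fun x hx => ?_⟩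
  have h1 : Runs (Pf.map e1) (mk (rep x) emp emp) (mk (rep x) emp (mk (rep (f x)) emp emp))
      (pf.eval (size x)) := by
    refine (hPf x hx).map he1 ?_ ?_ ?_
    · rintro (a | a | a) <;> rfl
    · rintro (a | a | a) <;> rfl
    · rintro (a | a | a | a | a) hk
      · rfl
      · rfl
      · exact absurd rfl (hk (Sum.inr (Sum.inl a)))
      · exact absurd rfl (hk (Sum.inr (Sum.inr a)))
      · rfl
  have h2 : Runs (Pg.map e2) (mk (rep x) emp (mk (rep (f x)) emp emp))
      (mk (rep x) (rep (g (f x))) (mk (rep (f x)) emp emp))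
      (pg.eval (size (f x))) := by
    refine (hPg (f x) (hD x hx)).map he2 ?_ ?_ ?_
    · rintro (a | a | a) <;> rfl
    · rintro (a | a | a) <;> rfl
    · rintro (a | a | a | a | a) hk
      · rfl
      · exact absurd rfl (hk (Sum.inr (Sum.inl a)))
      · rfl
      · rfl
      · exact absurd rfl (hk (Sum.inr (Sum.inr a)))
  have h3 := runs_clear d hd (mk (rep x) (rep (g (f x))) (mk (rep (f x)) emp emp))
    (mk (rep x) (rep (g (f x))) emp) (fun j => rfl) (by
      rintro (a | a | a | a | a) hk
      · rfl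
      · rfl
      · exact absurd rfl (hk a)
      · rfl
      · rfl)
  refine (h1.seq (h2.seq h3)).mono ?_
  simp only [Polynomial.eval_add, Polynomial.eval_mul, Polynomial.eval_comp,
    Polynomial.eval_C, Polynomial.eval_ofNat]
  have e1 : pg.eval (size (f x)) ≤ pg.eval (qf.eval (size x)) := poly_mono _ (hqf x hx)
  have e2 : ∑ j, (rep (f x) j).length ≤ qf.eval (size x) := hqf x hx
  have e3 : ∑ j, (mk (rep x) (rep (g (f x))) (mk (rep (f x)) (emp : Fin nf → List Sym)
    (emp : Fin ng → List Sym)) (d j)).length = ∑ j, (rep (f x) j).length := rfl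
  rw [e3]
  omega

theorem FP.comp {g : F → G} {f : E → F} (hg : FP g) (hf : FP f) : FP (fun x => g (f x)) :=
  FPon.comp hg hf (fun _ _ => trivial)

/-- Pairing. -/
theorem FPon.pair {D : E → Prop} {f : E → F} {g : E → G} (hf : FPon D f) (hg : FPon D g) :
    FPon D (fun x => (f x, g x)) := by
  obtain ⟨nf, Pf, pf, hPf⟩ := hf
  obtain ⟨ng, Pg, pg, hPg⟩ := hg
  apply FPτ.toFP (τ := Fin nf ⊕ Fin ng)
  let e1 : ix E ⊕ ix F ⊕ Fin nf → ix E ⊕ ix (F × G) ⊕ (Fin nf ⊕ Fin ng) :=
    Sum.elim Sum.inl (Sum.elim (fun j => Sum.inr (Sum.inl (Sum.inl j)))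
      (fun t => Sum.inr (Sum.inr (Sum.inl t))))
  have he1 : Function.Injective e1 := by
    rintro (a | a | a) (b | b | b) hab <;> cases hab <;> rfl
  let e2 : ix E ⊕ ix G ⊕ Fin ng → ix E ⊕ ix (F × G) ⊕ (Fin nf ⊕ Fin ng) :=
    Sum.elim Sum.inl (Sum.elim (fun j => Sum.inr (Sum.inl (Sum.inr j)))
      (fun t => Sum.inr (Sum.inr (Sum.inr t))))
  have he2 : Function.Injective e2 := by
    rintro (a | a | a) (b | b | b) hab <;> cases hab <;> rfl
  refine ⟨.seq (Pf.map e1) (Pg.map e2), pf + pg, fun x hx => ?_⟩
  have h1 : Runs (Pf.map e1) (mk (rep x) emp emp) (mk (rep x) (Sum.elim (rep (f x)) emp) emp)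
      (pf.eval (size x)) := by
    refine (hPf x hx).map he1 ?_ ?_ ?_
    · rintro (a | a | a) <;> rfl
    · rintro (a | a | a) <;> rfl
    · rintro (a | (a | a) | a | a) hk
      · rfl
      · exact absurd rfl (hk (Sum.inr (Sum.inl a)))
      · rfl
      · rfl
      · rfl
  have h2 : Runs (Pg.map e2) (mk (rep x) (Sum.elim (rep (f x)) emp) emp)
      (mk (rep x) (rep (f x, g x)) emp) (pg.eval (size x)) := by
    refine (hPg x hx).map he2 ?_ ?_ ?_
    · rintro (a | a | a) <;> rfl
    · rintro (a | a | a) <;> rfl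
    · rintro (a | (a | a) | a | a) hk
      · rfl
      · rfl
      · exact absurd rfl (hk (Sum.inr (Sum.inl a)))
      · rfl
      · rfl
  refine (h1.seq h2).mono ?_
  simp

theorem FP.pair {f : E → F} {g : E → G} (hf : FP f) (hg : FP g) :
    FP (fun x => (f x, g x)) := FPon.pair hf hg

/-- Constant functions. -/
theorem FP.const (c : F) : FP (fun _ : E => c) := by
  classical
  apply FPτ.toFP (τ := Empty)
  refine ⟨seqList (fun j => pushList (Sum.inr (Sum.inl j)) (rep c j))
    (Finset.univ : Finset (ix F)).toList,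
    Polynomial.C (size c), fun x _ => ?_⟩
  have key := runs_seqList
    (fun j => pushList (Sum.inr (Sum.inl j) : ix E ⊕ ix F ⊕ Empty) (rep c j))
    (fun D => mk (rep x) (fun j => if D j then rep c j else []) emp)
    (fun j => (rep c j).length) ?_ (Finset.univ : Finset (ix F)).toList
    (Finset.nodup_toList _) (fun _ => False) (by simp)
  · refine (key.mono ?_).congr₂ (by simp) ?_
    · rw [Finset.sum_map_toList, Polynomial.eval_C]
      exact le_rfl
    · funext k
      rcases k with k | k | k
      · rfl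
      · simp
      · rfl
  · intro D j hj
    have := runs_pushList (Sum.inr (Sum.inl j) : ix E ⊕ ix F ⊕ Empty) (rep c j)
      (mk (rep x) (fun j => if D j then rep c j else []) emp)
    refine this.congr ?_
    rw [update_mk_right]
    congr 2
    funext i
    by_cases hi : i = j
    · subst hi
      simp [hj]
    · simp [Function.update_of_ne hi, hi]

/-- Adding a symbol in front. -/
theorem FPon.cons {D : E → Prop} (a : Sym) {f : E → List Sym} (hf : FPon D f) :
    FPon D (fun x => a :: f x) := by
  obtain ⟨nf, Pf, pf, hPf⟩ := hf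
  refine ⟨nf, .seq Pf (.push (Sum.inr (Sum.inl ())) a), pf + 1, fun x hx => ?_⟩
  refine (((hPf x hx).seq (Runs.push _ _ _)).mono (by simp)).congr ?_
  rw [update_mk_right]
  rfl

theorem FP.cons (a : Sym) {f : E → List Sym} (hf : FP f) : FP (fun x => a :: f x) :=
  FPon.cons a hf

end Pool.Agent.PartSep.TM
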