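import Pool.Agent.Lib_MP_42fe4d_lc.TM.FP

/-!
Case distinction and bounded iteration.
-/

namespace Pool.Agent.PartSep.TM

open Prog Rep

set_option synthInstance.maxSize 2000

variable {E F G : Type} [Rep E] [Rep F] [Rep G]

theorem update_L {I J T : Type} [DecidableEq I] [DecidableEq J] [DecidableEq T]
    (x : I → List Sym) (y : J → List Sym) (z : T → List Sym) (t t' : List Sym) :
    Function.update (Sum.elim x (Sum.elim y (Sum.elim (fun _ : Unit => t) z)))
      (Sum.inr (Sum.inr (Sum.inl ()))) t' =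
      Sum.elim x (Sum.elim y (Sum.elim (fun _ : Unit => t') z)) := by
  funext k
  rcases k with b | b | b | b
  · rw [Function.update_of_ne (by simp)]; rfl
  · rw [Function.update_of_ne (by simp)]; rfl
  · cases b; rw [Function.update_self]; rfl
  · rw [Function.update_of_ne (by simp)]; rfl

/-- Case distinction on a string. -/
theorem FPon.case {D : E → Prop} {l : E → List Sym} (hl : FPon D l) {g0 : E → F}
    (h0 : FPon (fun x => D x ∧ l x = []) g0)
    {g : Sym → E × List Sym → F}
    (hg : ∀ a, FPon (fun y : E × List Sym => D y.1 ∧ l y.1 = a :: y.2) (g a)) {f : E → F}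
    (hf0 : ∀ x, D x → l x = [] → f x = g0 x)
    (hf : ∀ x a t, D x → l x = a :: t → f x = g a (x, t)) : FPon D f := by
  obtain ⟨ql, hql⟩ := hl.size_le
  obtain ⟨nl, Pl, pl, hPl⟩ := hl
  obtain ⟨n0, P0, p0, hP0⟩ := h0
  choose n P p hP using hg
  apply FPτ.toFP (τ := Unit ⊕ Fin nl ⊕ Fin n0 ⊕ (Σ a : Sym, Fin (n a)))
  let el : ix E ⊕ ix (List Sym) ⊕ Fin nl →
      ix E ⊕ ix F ⊕ (Unit ⊕ Fin nl ⊕ Fin n0 ⊕ (Σ a : Sym, Fin (n a))) :=
    Sum.elim Sum.inl (Sum.elim (fun _ => Sum.inr (Sum.inr (Sum.inl ())))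
      (fun t => Sum.inr (Sum.inr (Sum.inr (Sum.inl t)))))
  have hel : Function.Injective el := by
    rintro (a | a | a) (b | b | b) hab <;> cases hab <;> rfl
  let e0 : ix E ⊕ ix F ⊕ Fin n0 →
      ix E ⊕ ix F ⊕ (Unit ⊕ Fin nl ⊕ Fin n0 ⊕ (Σ a : Sym, Fin (n a))) :=
    Sum.elim Sum.inl (Sum.elim (fun j => Sum.inr (Sum.inl j))
      (fun t => Sum.inr (Sum.inr (Sum.inr (Sum.inr (Sum.inl t))))))
  have he0 : Function.Injective e0 := by
    rintro (a | a | a) (b | b | b) hab <;> cases hab <;> rfl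
  let e : ∀ a : Sym, ix (E × List Sym) ⊕ ix F ⊕ Fin (n a) →
      ix E ⊕ ix F ⊕ (Unit ⊕ Fin nl ⊕ Fin n0 ⊕ (Σ a : Sym, Fin (n a))) := fun a =>
    Sum.elim (Sum.elim Sum.inl (fun _ => Sum.inr (Sum.inr (Sum.inl ()))))
      (Sum.elim (fun j => Sum.inr (Sum.inl j))
        (fun t => Sum.inr (Sum.inr (Sum.inr (Sum.inr (Sum.inr ⟨a, t⟩))))))
  have he : ∀ a, Function.Injective (e a) := by
    intro s
    rintro ((a | a) | a | a) ((b | b) | b | b) hab <;> cases hab <;> rfl
  let L : ix E ⊕ ix F ⊕ (Unit ⊕ Fin nl ⊕ Fin n0 ⊕ (Σ a : Sym, Fin (n a))) :=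
    Sum.inr (Sum.inr (Sum.inl ()))
  refine ⟨.seq (Pl.map el) (.case L (fun o => match o with
    | none => P0.map e0
    | some a => .seq ((P a).map (e a)) (.loop L (fun _ => .skip)))),
    pl + (p0 + ∑ a, (p a).comp (Polynomial.X + ql) + 2 * ql + 3), fun x hx => ?_⟩
  let mid : List Sym → (ix E ⊕ ix F ⊕ (Unit ⊕ Fin nl ⊕ Fin n0 ⊕ (Σ a : Sym, Fin (n a)))) →
    List Sym := fun t => mk (rep x) emp (mk (fun _ => t) emp emp)
  have h1 : Runs (Pl.map el) (mk (rep x) emp emp) (mid (l x)) (pl.eval (size x)) := by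
    refine (hPl x hx).map hel ?_ ?_ ?_
    · rintro (a | a | a) <;> rfl
    · rintro (a | a | a) <;> rfl
    · rintro (a | a | a | a | a | a) hk
      · rfl
      · rfl
      · exact absurd rfl (hk (Sum.inr (Sum.inl a)))
      · exact absurd rfl (hk (Sum.inr (Sum.inr a)))
      · rfl
      · rfl
  have hlen : (l x).length ≤ ql.eval (size x) := by
    have := hql x hx
    rwa [size_list] at this
  cases hlx : l x with
  | nil =>
    rw [hlx] at h1
    have h2 : Runs (P0.map e0) (mid []) (mk (rep x) (rep (f x)) emp) (p0.eval (size x)) := by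
      refine (hP0 x ⟨hx, hlx⟩).map he0 ?_ ?_ ?_
      · rintro (a | a | a) <;> rfl
      · rw [hf0 x hx hlx]
        rintro (a | a | a) <;> rfl
      · rintro (a | a | a | a | a | a) hk
        · rfl
        · exact absurd rfl (hk (Sum.inr (Sum.inl a)))
        · rfl
        · rfl
        · rfl
        · rfl
    refine (h1.seq (Runs.case_nil (k := L) rfl h2)).mono ?_
    simp only [Polynomial.eval_add, Polynomial.eval_mul, Polynomial.eval_comp,
      Polynomial.eval_ofNat]
    omega
  | cons a t =>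
    rw [hlx] at h1 hlen
    have h2 : Runs ((P a).map (e a)) (mid t) (mk (rep x) (rep (f x)) (mk (fun _ => t) emp emp))
        ((p a).eval (size (x, t))) := by
      refine (hP a (x, t) ⟨hx, hlx⟩).map (he a) ?_ ?_ ?_
      · rintro ((b | b) | b | b) <;> rfl
      · rw [hf x a t hx hlx]
        rintro ((b | b) | b | b) <;> rfl
      · rintro (b | b | b | b | b | b) hk
        · rfl
        · exact absurd rfl (hk (Sum.inr (Sum.inl b)))
        · rfl
        · rfl
        · rfl
        · rfl
    have h3 : Runs (.loop L (fun _ => .skip)) (mk (rep x) (rep (f x)) (mk (fun _ => t) emp emp))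
        (mk (rep x) (rep (f x)) emp) (2 * t.length + 2) := by
      refine (runs_clear1 L t _ rfl).congr ?_
      refine (update_L _ _ _ _ _).trans ?_
      funext k
      rcases k with b | b | b | b | b | b <;> rfl
    have h4 := Runs.case_cons (k := L) (S := mid (a :: t)) (a := a) (l := t)
      (c := (fun o => match o with
        | none => P0.map e0
        | some a => .seq ((P a).map (e a)) (.loop L (fun _ => .skip)))) rfl
      (T := (p a).eval (size (x, t)) + (2 * t.length + 2)) (S' := mk (rep x) (rep (f x)) emp) (by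
        exact (h2.seq h3).congr₂ (update_L _ _ _ _ _).symm rfl)
    refine (h1.seq h4).mono ?_
    simp only [Polynomial.eval_add, Polynomial.eval_mul, Polynomial.eval_comp,
      Polynomial.eval_ofNat, Polynomial.eval_finset_sum, Polynomial.eval_X]
    have e1 : size (x, t) ≤ size x + ql.eval (size x) := by
      rw [size_pair]
      simp only [size_list]
      simp only [List.length_cons] at hlen
      omega
    have e2 := poly_mono (p a) e1
    have e3 : (p a).eval (size x + ql.eval (size x)) ≤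
        ∑ a, (p a).eval (size x + ql.eval (size x)) :=
      Finset.single_le_sum (f := fun a => (p a).eval (size x + ql.eval (size x)))
        (fun _ _ => Nat.zero_le _) (Finset.mem_univ a)
    simp only [List.length_cons] at hlen
    omega

theorem FP.case {l : E → List Sym} (hl : FP l) {g0 : E → F} (h0 : FP g0)
    {g : Sym → E × List Sym → F} (hg : ∀ a, FP (g a)) {f : E → F}
    (hf0 : ∀ x, l x = [] → f x = g0 x)
    (hf : ∀ x a t, l x = a :: t → f x = g a (x, t)) : FP f :=
  FPon.case hl h0.on (fun a => (hg a).on) (fun x _ => hf0 x) (fun x a t _ => hf x a t)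

/-- Bounded iteration along a string. -/
theorem FP.foldl {l : E → List Sym} (hl : FP l) {init : E → F} (h0 : FP init)
    {step : Sym → E × F → F} (hg : ∀ a, FP (step a))
    (hB : ∃ q : Polynomial ℕ, ∀ x, ∀ l', l' <+: l x →
      size (List.foldl (fun s a => step a (x, s)) (init x) l') ≤ q.eval (size x)) :
    FP (fun x => List.foldl (fun s a => step a (x, s)) (init x) (l x)) := by
  obtain ⟨qB, hqB⟩ := hB
  obtain ⟨ql, hql⟩ := hl.size_le
  obtain ⟨nl, Pl, pl, hPl⟩ := hl
  obtain ⟨n0, P0, p0, hP0⟩ := h0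
  choose n P p hP using hg
  apply FPτ.toFP (τ := Unit ⊕ ix F ⊕ Unit ⊕ Fin nl ⊕ Fin n0 ⊕ (Σ a : Sym, Fin (n a)))
  let el : ix E ⊕ ix (List Sym) ⊕ Fin nl →
      ix E ⊕ ix F ⊕ (Unit ⊕ ix F ⊕ Unit ⊕ Fin nl ⊕ Fin n0 ⊕ (Σ a : Sym, Fin (n a))) :=
    Sum.elim Sum.inl (Sum.elim (fun _ => Sum.inr (Sum.inr (Sum.inl ())))
      (fun t => Sum.inr (Sum.inr (Sum.inr (Sum.inr (Sum.inr (Sum.inl t)))))))
  have hel : Function.Injective el := by
    rintro (a | a | a) (b | b | b) hab <;> cases hab <;> rfl
  let e0 : ix E ⊕ ix F ⊕ Fin n0 →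
      ix E ⊕ ix F ⊕ (Unit ⊕ ix F ⊕ Unit ⊕ Fin nl ⊕ Fin n0 ⊕ (Σ a : Sym, Fin (n a))) :=
    Sum.elim Sum.inl (Sum.elim (fun j => Sum.inr (Sum.inl j))
      (fun t => Sum.inr (Sum.inr (Sum.inr (Sum.inr (Sum.inr (Sum.inr (Sum.inl t))))))))
  have he0 : Function.Injective e0 := by
    rintro (a | a | a) (b | b | b) hab <;> cases hab <;> rfl
  let e : ∀ a : Sym, ix (E × F) ⊕ ix F ⊕ Fin (n a) →
      ix E ⊕ ix F ⊕ (Unit ⊕ ix F ⊕ Unit ⊕ Fin nl ⊕ Fin n0 ⊕ (Σ a : Sym, Fin (n a))) :=
    fun a =>
    Sum.elim (Sum.elim Sum.inl (fun j => Sum.inr (Sum.inl j)))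
      (Sum.elim (fun j => Sum.inr (Sum.inr (Sum.inr (Sum.inl j))))
        (fun t => Sum.inr (Sum.inr (Sum.inr (Sum.inr (Sum.inr (Sum.inr (Sum.inr ⟨a, t⟩))))))))
  have he : ∀ a, Function.Injective (e a) := by
    intro s
    rintro ((a | a) | a | a) ((b | b) | b | b) hab <;> cases hab <;> rfl
  let L : ix E ⊕ ix F ⊕ (Unit ⊕ ix F ⊕ Unit ⊕ Fin nl ⊕ Fin n0 ⊕ (Σ a : Sym, Fin (n a))) :=
    Sum.inr (Sum.inr (Sum.inl ()))
  let d : ix F → ix E ⊕ ix F ⊕
      (Unit ⊕ ix F ⊕ Unit ⊕ Fin nl ⊕ Fin n0 ⊕ (Σ a : Sym, Fin (n a))) :=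
    fun j => Sum.inr (Sum.inl j)
  let d2 : ix F → ix E ⊕ ix F ⊕
      (Unit ⊕ ix F ⊕ Unit ⊕ Fin nl ⊕ Fin n0 ⊕ (Σ a : Sym, Fin (n a))) :=
    fun j => Sum.inr (Sum.inr (Sum.inr (Sum.inl j)))
  let sc : ix E ⊕ ix F ⊕ (Unit ⊕ ix F ⊕ Unit ⊕ Fin nl ⊕ Fin n0 ⊕ (Σ a : Sym, Fin (n a))) :=
    Sum.inr (Sum.inr (Sum.inr (Sum.inr (Sum.inl ()))))
  have hd : Function.Injective d := by
    intro a b hab; cases hab; rfl
  have hd2 : Function.Injective d2 := by
    intro a b hab; cases hab; rfl
  let bodyP : Sym → Prog (ix E ⊕ ix F ⊕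
      (Unit ⊕ ix F ⊕ Unit ⊕ Fin nl ⊕ Fin n0 ⊕ (Σ a : Sym, Fin (n a)))) Sym := fun a =>
    .seq ((P a).map (e a)) (.seq
      (seqList (fun j => .loop (d j) (fun _ => .skip)) (Finset.univ : Finset (ix F)).toList)
      (seqList (fun j => move (d2 j) (d j) sc) (Finset.univ : Finset (ix F)).toList))
  let cF := Fintype.card (ix F)
  refine ⟨.seq (Pl.map el) (.seq (P0.map e0) (.loop L bodyP)),
    pl + (p0 + (ql * (∑ a, (p a).comp (Polynomial.X + qB) + 8 * qB +
      Polynomial.C (6 * cF + 2)) + 2)), fun x _ => ?_⟩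
  let St : (ix F → List Sym) → (ix F → List Sym) → List Sym →
    (ix E ⊕ ix F ⊕ (Unit ⊕ ix F ⊕ Unit ⊕ Fin nl ⊕ Fin n0 ⊕ (Σ a : Sym, Fin (n a)))) →
    List Sym := fun s s2 t => mk (rep x) s (mk (fun _ => t) s2 (mk emp emp emp))
  have h1 : Runs (Pl.map el) (mk (rep x) emp emp) (St emp emp (l x)) (pl.eval (size x)) := by
    refine (hPl x trivial).map hel ?_ ?_ ?_
    · rintro (a | a | a) <;> rfl
    · rintro (a | a | a) <;> rfl
    · rintro (a | a | a | a | a | a | a | a) hk
      · rfl
      · rfl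
      · exact absurd rfl (hk (Sum.inr (Sum.inl a)))
      · rfl
      · rfl
      · rfl
      · rfl
      · rfl
  have h2 : Runs (P0.map e0) (St emp emp (l x)) (St (rep (init x)) emp (l x))
      (p0.eval (size x)) := by
    refine (hP0 x trivial).map he0 ?_ ?_ ?_
    · rintro (a | a | a) <;> rfl
    · rintro (a | a | a) <;> rfl
    · rintro (a | a | a | a | a | a | a | a) hk
      · rfl
      · exact absurd rfl (hk (Sum.inr (Sum.inl a)))
      · rfl
      · rfl
      · rfl
      · rfl
      · rfl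
      · rfl
  set B := qB.eval (size x) with hBdef
  set W := ∑ a, (p a).eval (size x + B) + 8 * B + (6 * cF + 2) with hW
  have hbody : ∀ (a : Sym) (s : F) (t : List Sym), size s ≤ B → size (step a (x, s)) ≤ B →
      Runs (bodyP a) (St (rep s) emp t) (St (rep (step a (x, s))) emp t)
        (∑ a, (p a).eval (size x + B) + 8 * B + 6 * cF) := by
    intro a s t hs hs'
    have g1 : Runs ((P a).map (e a)) (St (rep s) emp t)
        (St (rep s) (rep (step a (x, s))) t) ((p a).eval (size (x, s))) := by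
      refine (hP a (x, s) trivial).map (he a) ?_ ?_ ?_
      · rintro ((b | b) | b | b) <;> rfl
      · rintro ((b | b) | b | b) <;> rfl
      · rintro (b | b | b | b | b | b | b | b) hk
        · rfl
        · rfl
        · rfl
        · exact absurd rfl (hk (Sum.inr (Sum.inl b)))
        · rfl
        · rfl
        · rfl
        · rfl
    have g2 := runs_clear d hd (St (rep s) (rep (step a (x, s))) t)
      (St emp (rep (step a (x, s))) t) (fun j => rfl) (by
        rintro (b | b | b | b | b | b | b | b) hk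
        · rfl
        · exact absurd rfl (hk b)
        · rfl
        · rfl
        · rfl
        · rfl
        · rfl
        · rfl)
    have g3 := runs_moveAll d2 d sc hd2 hd (by intro i j hij; cases hij)
      (by intro j hij; simp [d2, sc] at hij) (by intro j hij; simp [d, sc] at hij)
      (St emp (rep (step a (x, s))) t)
      (St (rep (step a (x, s))) emp t) rfl (fun j => rfl) (fun j => rfl) (fun j => rfl) (by
        rintro (b | b | b | b | b | b | b | b) hk hk'
        · rfl
        · exact absurd rfl (hk' b)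
        · rfl
        · exact absurd rfl (hk b)
        · rfl
        · rfl
        · rfl
        · rfl)
    refine (g1.seq (g2.seq g3)).mono ?_
    have e1 : size (x, s) ≤ size x + B := by
      rw [size_pair]
      exact Nat.add_le_add_left hs _
    have e2 := poly_mono (p a) e1
    have e3 : (p a).eval (size x + B) ≤ ∑ a, (p a).eval (size x + B) :=
      Finset.single_le_sum (f := fun a => (p a).eval (size x + B))
        (fun _ _ => Nat.zero_le _) (Finset.mem_univ a)
    have e4 : ∑ j, (St (rep s) (rep (step a (x, s))) t (d j)).length = size s := rfl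
    have e5 : ∑ j, (St emp (rep (step a (x, s))) t (d2 j)).length = size (step a (x, s)) := rfl
    rw [e4, e5]
    omega
  have hloop : ∀ (t : List Sym) (s : F),
      (∀ l', l' <+: t → size (List.foldl (fun s a => step a (x, s)) s l') ≤ B) →
      Runs (.loop L bodyP) (St (rep s) emp t)
        (St (rep (List.foldl (fun s a => step a (x, s)) s t)) emp []) (t.length * W + 2) := by
    intro t
    induction t with
    | nil =>
      intro s _
      refine ((Runs.loop_nil (k := L) rfl).mono (by omega)).congr ?_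
      rfl
    | cons a t ih =>
      intro s hs
      have hs0 : size s ≤ B := hs [] (List.nil_prefix)
      have hs1 : size (step a (x, s)) ≤ B := hs [a] ⟨t, rfl⟩
      have g1 := hbody a s t hs0 hs1
      have g2 := ih (step a (x, s)) (by
        rintro l' ⟨r, rfl⟩
        exact hs (a :: l') ⟨r, rfl⟩)
      refine (Runs.loop_cons (k := L) (a := a) (l := t) rfl
        (g1.congr₂ (update_L _ _ _ _ _).symm rfl) g2).mono ?_
      simp only [List.length_cons, Nat.succ_mul, hW]
      omega
  have h3 := hloop (l x) (init x) (hqB x)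
  refine ((h1.seq (h2.seq h3)).mono ?_).congr ?_
  · simp only [Polynomial.eval_add, Polynomial.eval_mul, Polynomial.eval_comp,
      Polynomial.eval_ofNat, Polynomial.eval_finset_sum, Polynomial.eval_X, Polynomial.eval_C]
    rw [← hBdef, ← hW]
    have e1 : (l x).length ≤ ql.eval (size x) := by
      have := hql x
      rwa [size_list] at this
    have e2 : (l x).length * W ≤ ql.eval (size x) * W := Nat.mul_le_mul_right _ e1
    omega
  · funext k
    rcases k with b | b | b | b | b | b | b | b <;> rfl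

end Pool.Agent.PartSep.TM
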