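import Pool.Agent.Lib_MP_42fe4d_lc.TM.Lite
import Pool.Agent.Lib_MP_42fe4d_lc.Main

/-!
The construction of the graph is a polynomial time function.
-/

namespace Pool.Agent.PartSep.TM

open Prog Rep

set_option synthInstance.maxSize 2000

variable {E F G H : Type} [Rep E] [Rep F] [Rep G] [Rep H]

/-- vertex descriptors -/
abbrev VD := ℕ × List (Name × Bool)

def blockL (j : ℕ) (c : List (Name × Bool)) : List VD :=
  c.map (fun l => (6 * j, [l])) ++
    [(6 * j + 1, []), (6 * j + 2, []), (6 * j + 3, []), (6 * j + 4, []), (6 * j + 5, [])]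

def tailL (j : ℕ) : List VD :=
  [(6 * j, []), (6 * j + 1, []), (6 * j + 2, []), (6 * j + 3, []), (6 * j + 4, []),
    (6 * j + 5, []), (6 * j + 6, [])]

def vertsL (φ : CNF Name) : List VD :=
  (List.range φ.length).flatMap (fun j => blockL j (φ[j]?.getD [])) ++ tailL φ.length

theorem vertsL_eq (φ : CNF Name) : vertsL φ = (verts φ).map (fun p => (p.1, p.2.toList)) := by
  have key : ∀ (φ : CNF Name) (i : ℕ),
      (List.range φ.length).flatMap (fun j => blockL (i + j) (φ[j]?.getD [])) ++
        tailL (i + φ.length) = (vertsFrom i φ).map (fun p => (p.1, p.2.toList)) := by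
    intro φ
    induction φ with
    | nil => intro i; simp [vertsFrom, tailL, tailVerts]
    | cons c φ ih =>
      intro i
      simp only [vertsFrom, List.map_append, ← ih (i + 1), List.length_cons, List.range_succ_eq_map,
        List.flatMap_cons, List.flatMap_map, List.getElem?_cons_zero, List.getElem?_cons_succ,
        Option.getD_some, Nat.add_zero]
      rw [List.append_assoc]
      congr 1
      · simp [blockL, blockVerts]
      · have e1 : ∀ j, i + 1 + j = i + (j + 1) := by intro j; ring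
        simp only [e1]
  have := key φ 0
  simpa [vertsL, verts] using this

theorem FP.vd0 {f : E → ℕ} (hf : FP f) (k : ℕ) :
    FP (fun x => ((6 * f x + k, []) : VD)) :=
  FP.pair (FP.addConst (FP.mulConst hf 6) k) (FP.const [])

theorem FP.blockL {f : E → ℕ} (hf : FP f) {c : E → List (Name × Bool)} (hc : FP c) :
    FP (fun x => blockL (f x) (c x)) := by
  unfold TM.blockL
  refine FP.appendE ?_ ?_
  · exact FP.mapE hc (g := fun y => ((6 * f y.1, [y.2]) : VD))
      (FP.pair (FP.mulConst (FP.comp hf FP.fst) 6) (FP.consE FP.snd (FP.const [])))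
  · exact FP.consE (FP.vd0 hf 1) (FP.consE (FP.vd0 hf 2) (FP.consE (FP.vd0 hf 3)
      (FP.consE (FP.vd0 hf 4) (FP.consE (FP.vd0 hf 5) (FP.const [])))))

theorem FP.tailL {f : E → ℕ} (hf : FP f) : FP (fun x => tailL (f x)) := by
  unfold TM.tailL
  exact FP.consE ((FP.vd0 hf 0).congr (fun x => by simp))
    (FP.consE (FP.vd0 hf 1) (FP.consE (FP.vd0 hf 2) (FP.consE (FP.vd0 hf 3)
    (FP.consE (FP.vd0 hf 4) (FP.consE (FP.vd0 hf 5) (FP.consE (FP.vd0 hf 6) (FP.const [])))))))

theorem FP.vertsL : FP vertsL := by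
  unfold TM.vertsL
  refine FP.appendE ?_ (FP.tailL (FP.lengthE FP.id))
  exact FP.flatMapE (FP.range (FP.lengthE FP.id))
    (g := fun y : CNF Name × ℕ => TM.blockL y.2 (y.1[y.2]?.getD []))
    (FP.blockL FP.snd (FP.getE FP.fst FP.snd []))

/-- adjacency of layers as a Boolean -/
def stripB (N a b : ℕ) : Bool :=
  (decide (a < b) && (decide (b ≤ a + 2) || decide (a + N ≤ b + 2))) ||
    (decide (b < a) && (decide (a ≤ b + 2) || decide (b + N ≤ a + 2)))

theorem stripB_iff (N a b : ℕ) : stripB N a b = true ↔ Strip N a b := by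
  simp [stripB, Strip]

theorem FP.stripB {N a b : E → ℕ} (hN : FP N) (ha : FP a) (hb : FP b) :
    FP (fun x => stripB (N x) (a x) (b x)) := by
  unfold TM.stripB
  exact FP.or
    (FP.and (FP.natLt ha hb) (FP.or (FP.natLe hb (FP.addConst ha 2))
      (FP.natLe (FP.add ha hN) (FP.addConst hb 2))))
    (FP.and (FP.natLt hb ha) (FP.or (FP.natLe ha (FP.addConst hb 2))
      (FP.natLe (FP.add hb hN) (FP.addConst ha 2))))

/-- conflict of vertex descriptors -/
def confB (p q : VD) : Bool :=
  !(decide (p.1 = q.1)) && (!(p.2.isEmpty) && (!(q.2.isEmpty) &&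
    (decide ((p.2[0]?.getD ([], false)).1 = (q.2[0]?.getD ([], false)).1) &&
      ((p.2[0]?.getD ([], false)).2 != (q.2[0]?.getD ([], false)).2))))

theorem confB_iff (p q : ℕ × Option (Lit Name)) :
    confB (p.1, p.2.toList) (q.1, q.2.toList) = true ↔ Conf p q := by
  obtain ⟨a, lp⟩ := p
  obtain ⟨b, lq⟩ := q
  unfold Conf
  cases lp with
  | none => simp [confB]
  | some l =>
    cases lq with
    | none => simp [confB]
    | some l' =>
      obtain ⟨x, s⟩ := l
      obtain ⟨y, t⟩ := l'
      simp only [confB, Option.toList_some, List.isEmpty_cons, Bool.not_false, Bool.true_and,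
        List.getElem?_cons_zero, Option.getD_some, Bool.and_eq_true, Bool.not_eq_eq_eq_not,
        Bool.not_true, decide_eq_false_iff_not, decide_eq_true_eq, bne_iff_ne, ne_eq,
        Option.some.injEq, Prod.mk.injEq]
      constructor
      · rintro ⟨h1, h2, h3⟩
        refine ⟨h1, x, s, ⟨rfl, rfl⟩, h2.symm, ?_⟩
        cases s <;> cases t <;> simp_all
      · rintro ⟨h1, x', s', ⟨rfl, rfl⟩, rfl, rfl⟩
        refine ⟨h1, rfl, ?_⟩
        cases s <;> simp

theorem FP.confB {p q : E → VD} (hp : FP p) (hq : FP q) : FP (fun x => confB (p x) (q x)) := by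
  unfold TM.confB
  have hp1 := FP.comp FP.fst hp
  have hq1 := FP.comp FP.fst hq
  have hp2 := FP.comp FP.snd hp
  have hq2 := FP.comp FP.snd hq
  have gp := FP.getE hp2 (FP.const 0) (([], false) : Name × Bool)
  have gq := FP.getE hq2 (FP.const 0) (([], false) : Name × Bool)
  refine FP.and (FP.not (FP.natEq hp1 hq1)) (FP.and (FP.not (FP.isEmptyE hp2))
    (FP.and (FP.not (FP.isEmptyE hq2)) (FP.and ?_ (FP.bne (FP.comp FP.snd gp)
      (FP.comp FP.snd gq)))))
  exact (FP.eqS (FP.comp FP.fst gp) (FP.comp FP.fst gq))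

/-- adjacency bit -/
def adjB (N : ℕ) (p q : VD) : Bool := stripB N p.1 q.1 || confB p q

theorem adjB_iff (N : ℕ) (p q : ℕ × Option (Lit Name)) :
    adjB N (p.1, p.2.toList) (q.1, q.2.toList) = true ↔ VAdj N p q := by
  unfold adjB VAdj
  rw [Bool.or_eq_true, stripB_iff, confB_iff]

theorem FP.adjB {N : E → ℕ} {p q : E → VD} (hN : FP N) (hp : FP p) (hq : FP q) :
    FP (fun x => adjB (N x) (p x) (q x)) :=
  FP.or (FP.stripB hN (FP.comp FP.fst hp) (FP.comp FP.fst hq)) (FP.confB hp hq)

/-- the string of the instance; `w` is the code of the weight of a vertex -/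
def outS (w : List Sym) (φ : CNF Name) : List Sym :=
  (vertsL φ).flatMap (fun u => del (del ((vertsL φ).flatMap (fun v =>
    del [bs (adjB (6 * φ.length + 7) u v)])) ++ w))

theorem FP.outS (w : List Sym) : FP (outS w) := by
  unfold TM.outS
  have hbit : FP (fun y : (CNF Name × VD) × VD => [bs (TM.adjB (6 * y.1.1.length + 7) y.1.2 y.2)])
      := by
    refine (FP.ite (FP.adjB (FP.addConst (FP.mulConst (FP.lengthE (FP.comp FP.fst FP.fst)) 6) 7)
      (FP.comp FP.snd FP.fst) FP.snd) (FP.const [Sym.i]) (FP.const [Sym.o])).congr (fun y => ?_)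
    cases TM.adjB (6 * y.1.1.length + 7) y.1.2 y.2 <;> rfl
  refine FP.flatMapS FP.vertsL (g := fun y => TM.del (TM.del ((TM.vertsL y.1).flatMap (fun v =>
    TM.del [bs (TM.adjB (6 * y.1.length + 7) y.2 v)])) ++ w)) ?_
  refine FP.del (FP.append (FP.del ?_) (FP.const w))
  exact FP.flatMapS (E := CNF Name × VD) (l := fun y => TM.vertsL y.1)
    (FP.comp FP.vertsL FP.fst)
    (g := fun z => TM.del [bs (TM.adjB (6 * z.1.1.length + 7) z.1.2 z.2)]) (FP.del hbit)

end Pool.Agent.PartSep.TM
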