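import Pool.Agent.Lib_MP_42fe4d_lc.TM.ToTM2

/-!
A library of polynomial time functions.
-/

namespace Pool.Agent.PartSep.TM

open Prog Rep

set_option synthInstance.maxSize 2000

variable {E F G H : Type} [Rep E] [Rep F] [Rep G] [Rep H]

theorem FPon.pi {D : E → Prop} {f : E → F}
    (h : ∀ j : ix F, FPon D (fun x => (rep (f x) j : List Sym))) : FPon D f := by
  classical
  choose n P p hP using h
  apply FPτ.toFP (τ := Σ j : ix F, Fin (n j))
  let e : ∀ j : ix F, ix E ⊕ ix (List Sym) ⊕ Fin (n j) → ix E ⊕ ix F ⊕ (Σ j : ix F, Fin (n j)) :=
    fun j => Sum.elim Sum.inl (Sum.elim (fun _ => Sum.inr (Sum.inl j))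
      (fun t => Sum.inr (Sum.inr ⟨j, t⟩)))
  have he : ∀ j, Function.Injective (e j) := by
    intro j
    rintro (a | a | a) (b | b | b) hab <;> cases hab <;> rfl
  refine ⟨seqList (fun j => (P j).map (e j)) (Finset.univ : Finset (ix F)).toList,
    ∑ j, p j, fun x hx => ?_⟩
  have key := runs_seqList
    (fun j => (P j).map (e j))
    (fun D => mk (rep x) (fun j => if D j then rep (f x) j else []) emp)
    (fun j => (p j).eval (size x)) ?_ (Finset.univ : Finset (ix F)).toList
    (Finset.nodup_toList _) (fun _ => False) (by simp)
  · refine (key.mono ?_).congr₂ (by simp) ?_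
    · rw [Finset.sum_map_toList, Polynomial.eval_finset_sum]
    · funext k
      rcases k with k | k | k
      · rfl
      · simp
      · rfl
  · intro D j hj
    refine (hP j x hx).map (he j) ?_ ?_ ?_
    · rintro (a | a | a)
      · rfl
      · change (if D j then rep (f x) j else []) = []
        rw [if_neg hj]
      · rfl
    · rintro (a | a | a)
      · rfl
      · simp only [e, Sum.elim_inr, Sum.elim_inl]
        rw [if_pos (Or.inl trivial)]
        rfl
      · rfl
    · rintro (a | a | a) hk
      · rfl
      · have hja : a ≠ j := by
          rintro rfl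
          exact hk (Sum.inr (Sum.inl ())) rfl
        simp [hja]
      · rfl

theorem FP.pi {f : E → F} (h : ∀ j : ix F, FP (fun x => (rep (f x) j : List Sym))) : FP f :=
  FPon.pi h

/-- a component of the representation -/
theorem FPon.comp_rep {D : E → Prop} {f : E → F} (hf : FPon D f) (j : ix F) :
    FPon D (fun x => (rep (f x) j : List Sym)) :=
  FPon.comp (FPon.proj (D := fun _ => True) (E := F) (F := List Sym) (f := fun y => rep y j)
    (fun _ => j) (fun _ _ _ => rfl)) hf (fun _ _ => trivial)

/-! ### Booleans -/

instance : Rep Bool where
  ix := Unit
  rep b _ := if b then [Sym.i] else []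

theorem FPon.ite {D : E → Prop} {p : E → Bool} (hp : FPon D p) {f g : E → F}
    (hf : FPon (fun x => D x ∧ p x = true) f) (hg : FPon (fun x => D x ∧ p x = false) g) :
    FPon D (fun x => if p x then f x else g x) := by
  have hl := hp.comp_rep ()
  refine FPon.case hl (g0 := g) (g := fun _ y => f y.1) (hg.mono ?_) (fun a => ?_) ?_ ?_
  · rintro x ⟨h1, h2⟩
    refine ⟨h1, ?_⟩
    change (if p x then [Sym.i] else []) = [] at h2
    by_contra h
    simp only [Bool.not_eq_false] at h
    rw [h] at h2
    simp at h2
  · refine FPon.comp (D' := fun x => D x ∧ p x = true) hf FP.fst.on ?_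
    rintro ⟨x, t⟩ ⟨h1, h2⟩
    refine ⟨h1, ?_⟩
    change (if p x then [Sym.i] else []) = _ at h2
    by_contra h
    simp only [Bool.not_eq_true] at h
    simp only [h] at h2
    simp at h2
  · intro x hx h2
    change (if p x then [Sym.i] else []) = [] at h2
    have : p x = false := by
      by_contra h
      simp only [Bool.not_eq_false] at h
      rw [h] at h2
      simp at h2
    simp [this]
  · intro x a t hx h2
    change (if p x then [Sym.i] else []) = _ at h2
    have : p x = true := by
      by_contra h
      simp only [Bool.not_eq_true] at h
      simp only [h] at h2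
      simp at h2
    simp [this]

theorem FP.ite {p : E → Bool} (hp : FP p) {f g : E → F} (hf : FP f) (hg : FP g) :
    FP (fun x => if p x then f x else g x) :=
  FPon.ite hp hf.on hg.on

theorem FP.not {p : E → Bool} (hp : FP p) : FP (fun x => !(p x)) :=
  (FP.ite hp (FP.const false) (FP.const true)).congr (fun x => by cases p x <;> rfl)

theorem FP.and {p q : E → Bool} (hp : FP p) (hq : FP q) : FP (fun x => p x && q x) :=
  (FP.ite hp hq (FP.const false)).congr (fun x => by cases p x <;> rfl)

theorem FP.or {p q : E → Bool} (hp : FP p) (hq : FP q) : FP (fun x => p x || q x) :=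
  (FP.ite hp (FP.const true) hq).congr (fun x => by cases p x <;> rfl)

/-! ### Strings -/

theorem FP.tail {l : E → List Sym} (hl : FP l) : FP (fun x => (l x).tail) :=
  FP.case hl (g0 := fun _ => []) (FP.const _) (g := fun _ y => y.2) (fun _ => FP.snd)
    (fun x h => by simp [h]) (fun x a t h => by simp [h])

theorem FP.isEmpty {l : E → List Sym} (hl : FP l) : FP (fun x => (l x).isEmpty) :=
  FP.case hl (g0 := fun _ => true) (FP.const _) (g := fun _ _ => false) (fun _ => FP.const _)
    (fun x h => by simp [h]) (fun x a t h => by simp [h])

/-- Does the string start with the symbol `b`? -/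
theorem FP.headIs {l : E → List Sym} (hl : FP l) (b : Sym) :
    FP (fun x => decide ((l x).head? = some b)) :=
  FP.case hl (g0 := fun _ => false) (FP.const _) (g := fun a _ => decide (a = b))
    (fun _ => FP.const _)
    (fun x h => by simp [h]) (fun x a t h => by simp [h])

theorem size_bool (b : Bool) : size b ≤ 1 := by
  change ∑ _i : Unit, (if b then [Sym.i] else []).length ≤ 1
  cases b <;> simp

/-- Iteration in which the state grows by a bounded amount in each step. -/
theorem FP.foldl_growth {l : E → List Sym} (hl : FP l) {init : E → F} (h0 : FP init)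
    {step : Sym → E × F → F} (hg : ∀ a, FP (step a)) (q : Polynomial ℕ)
    (hq : ∀ a x s, size (step a (x, s)) ≤ size s + q.eval (size x)) :
    FP (fun x => List.foldl (fun s a => step a (x, s)) (init x) (l x)) := by
  obtain ⟨pl, hpl⟩ := hl.size_le
  obtain ⟨p0, hp0⟩ := h0.size_le
  refine FP.foldl hl h0 hg ⟨p0 + pl * q, fun x l' hl' => ?_⟩
  have key : ∀ (l' : List Sym) (s : F), size (List.foldl (fun s a => step a (x, s)) s l') ≤
      size s + l'.length * q.eval (size x) := by
    intro l'
    induction l' with
    | nil => intro s; simp
    | cons a l' ih =>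
      intro s
      have h1 := ih (step a (x, s))
      have h2 := hq a x s
      simp only [List.foldl_cons, List.length_cons, Nat.succ_mul]
      omega
  have h1 := key l' (init x)
  have h2 : l'.length ≤ pl.eval (size x) := by
    refine (hl'.length_le).trans ?_
    have := hpl x
    rwa [size_list] at this
  have h3 := hp0 x
  have h4 : l'.length * q.eval (size x) ≤ pl.eval (size x) * q.eval (size x) :=
    Nat.mul_le_mul_right _ h2
  simp only [Polynomial.eval_add, Polynomial.eval_mul]
  omega

theorem FP.revAppend {l m : E → List Sym} (hl : FP l) (hm : FP m) :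
    FP (fun x => (l x).reverse ++ m x) := by
  have := FP.foldl_growth hl hm (step := fun a y => a :: y.2)
    (fun a => FP.cons a FP.snd) 1 (by
      intro a x s
      simp [size_list])
  refine this.congr (fun x => ?_)
  generalize m x = s
  induction l x generalizing s with
  | nil => simp
  | cons a l ih => simp [ih]

theorem FP.reverse {l : E → List Sym} (hl : FP l) : FP (fun x => (l x).reverse) :=
  (FP.revAppend hl (FP.const [])).congr (fun x => by simp)

theorem FP.append {l m : E → List Sym} (hl : FP l) (hm : FP m) : FP (fun x => l x ++ m x) :=
  (FP.revAppend hl.reverse hm).congr (fun x => by simp)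

/-- substitution of strings for symbols -/
theorem FP.subst {l : E → List Sym} (hl : FP l) (h : Sym → List Sym) :
    FP (fun x => (l x).flatMap h) := by
  have := FP.foldl_growth hl (init := fun _ => []) (FP.const _)
    (step := fun a y => (h a).reverse ++ y.2)
    (fun a => FP.append (FP.const _) FP.snd)
    (Polynomial.C (∑ a, (h a).length)) (by
      intro a x s
      simp only [size_list, List.length_append, List.length_reverse, Polynomial.eval_C]
      have : (h a).length ≤ ∑ a, (h a).length :=
        Finset.single_le_sum (f := fun a => (h a).length) (fun _ _ => Nat.zero_le _)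
          (Finset.mem_univ a)
      omega)
  refine (this.reverse).congr (fun x => ?_)
  have key : ∀ (l s : List Sym), (List.foldl (fun s a => (h a).reverse ++ s) s l).reverse =
      s.reverse ++ l.flatMap h := by
    intro l
    induction l with
    | nil => simp
    | cons a l ih => intro s; rw [List.foldl_cons, ih]; simp
  simpa using key (l x) []

/-! ### Natural numbers -/

instance : Rep ℕ where
  ix := Unit
  rep n _ := List.replicate n Sym.i

theorem size_nat (n : ℕ) : size n = n := by
  change ∑ _i : Unit, (List.replicate n Sym.i).length = n
  simp

/-- unary string of a number -/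
theorem FP.unary {f : E → ℕ} (hf : FP f) : FP (fun x => List.replicate (f x) Sym.i) :=
  hf.comp_rep ()

theorem FP.ofUnary {f : E → ℕ} (hf : FP (fun x => List.replicate (f x) Sym.i)) : FP f :=
  FP.pi (fun _ => hf)

theorem FP.length {l : E → List Sym} (hl : FP l) : FP (fun x => (l x).length) := by
  apply FP.ofUnary
  refine (FP.subst hl (fun _ => [Sym.i])).congr (fun x => ?_)
  induction l x with
  | nil => rfl
  | cons a l ih => simp [List.replicate_succ, ih]

theorem FP.add {f g : E → ℕ} (hf : FP f) (hg : FP g) : FP (fun x => f x + g x) := by
  apply FP.ofUnary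
  refine (FP.append hf.unary hg.unary).congr (fun x => ?_)
  rw [List.replicate_append_replicate]

theorem FP.pred {f : E → ℕ} (hf : FP f) : FP (fun x => f x - 1) := by
  apply FP.ofUnary
  refine (FP.tail hf.unary).congr (fun x => ?_)
  simp

/-- Recursion on a natural number with bounded growth. -/
theorem FP.natRec_growth {n : E → ℕ} (hn : FP n) {init : E → F} (h0 : FP init)
    {step : E × F → F} (hg : FP step) (q : Polynomial ℕ)
    (hq : ∀ x s, size (step (x, s)) ≤ size s + q.eval (size x)) :
    FP (fun x => (fun s => step (x, s))^[n x] (init x)) := by
  have := FP.foldl_growth hn.unary h0 (step := fun _ => step) (fun _ => hg) q (fun _ => hq)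
  refine this.congr (fun x => ?_)
  generalize init x = s
  induction n x generalizing s with
  | zero => rfl
  | succ k ih => rw [List.replicate_succ, List.foldl_cons, ih, Function.iterate_succ_apply]

theorem FP.sub {f g : E → ℕ} (hf : FP f) (hg : FP g) : FP (fun x => f x - g x) := by
  have := FP.natRec_growth hg hf (step := fun y => y.2 - 1) (FP.pred FP.snd) 0 (by
    intro x s
    simp only [size_nat]
    omega)
  refine this.congr (fun x => ?_)
  generalize g x = n
  generalize f x = m
  induction n generalizing m with
  | zero => rfl
  | succ k ih => rw [Function.iterate_succ_apply, ih]; omega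

theorem FP.natIsZero {f : E → ℕ} (hf : FP f) : FP (fun x => decide (f x = 0)) :=
  (FP.isEmpty hf.unary).congr (fun x => by
    cases f x <;> simp [List.replicate_succ])

theorem FP.natLe {f g : E → ℕ} (hf : FP f) (hg : FP g) : FP (fun x => decide (f x ≤ g x)) :=
  (FP.natIsZero (FP.sub hf hg)).congr (fun x => by
    by_cases h : f x ≤ g x
    · simp [h]
    · simp only [h, decide_false, decide_eq_false_iff_not]; omega)

theorem FP.natLt {f g : E → ℕ} (hf : FP f) (hg : FP g) : FP (fun x => decide (f x < g x)) :=
  (FP.natLe (FP.add hf (FP.const 1)) hg).congr (fun x => by simp [Nat.succ_le_iff])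

theorem FP.natEq {f g : E → ℕ} (hf : FP f) (hg : FP g) : FP (fun x => decide (f x = g x)) :=
  (FP.and (FP.natLe hf hg) (FP.natLe hg hf)).congr (fun x => by
    by_cases h : f x = g x
    · simp [h]
    · simp only [h, decide_false, Bool.and_eq_false_iff, decide_eq_false_iff_not]; omega)

theorem FP.mul {f g : E → ℕ} (hf : FP f) (hg : FP g) : FP (fun x => f x * g x) := by
  -- iterate addition
  obtain ⟨p, hp⟩ := hf.size_le
  have := FP.foldl_growth hg.unary (init := fun _ => (0 : ℕ)) (FP.const _)
    (step := fun _ y => f y.1 + y.2)
    (fun _ => FP.add (FP.comp hf FP.fst) FP.snd) p (by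
      intro _ x s
      have := hp x
      simp only [size_nat] at *
      omega)
  refine this.congr (fun x => ?_)
  have key : ∀ (n s : ℕ), List.foldl (fun s _ => f x + s) s (List.replicate n Sym.i) =
      f x * n + s := by
    intro n
    induction n with
    | zero => simp
    | succ k ih => intro s; rw [List.replicate_succ, List.foldl_cons, ih]; ring
  simpa using key (g x) 0

/-- Polynomials can be evaluated in unary. -/
theorem FP.poly {f : E → ℕ} (hf : FP f) (p : Polynomial ℕ) : FP (fun x => p.eval (f x)) := by
  induction p using Polynomial.induction_on' with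
  | add p q hp hq => exact (FP.add hp hq).congr (fun x => by simp)
  | monomial n a =>
    induction n with
    | zero => exact (FP.const a).congr (fun x => by simp)
    | succ n ih =>
      refine (FP.mul ih hf).congr (fun x => ?_)
      simp only [Polynomial.eval_monomial]
      ring

/-! ### Lists -/

/-- self-delimiting code -/
def esc (w : List Sym) : List Sym := w.flatMap (fun a => [Sym.x, a]) ++ [Sym.y]

theorem length_esc (w : List Sym) : (esc w).length = 2 * w.length + 1 := by
  have : (w.flatMap (fun a => [Sym.x, a])).length = 2 * w.length := by
    induction w with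
    | nil => rfl
    | cons a w ih => simp only [List.flatMap_cons, List.length_append, ih, List.length_cons,
        List.length_nil]; ring
  simp [esc, this]

instance : Rep (List E) where
  ix := Option (ix E)
  rep l := fun o => match o with
    | none => List.replicate l.length Sym.i
    | some j => l.flatMap (fun a => esc (rep a j))

theorem size_listE (l : List E) :
    size l = (l.map (fun a => 1 + Fintype.card (ix E) + 2 * size a)).sum := by
  change ∑ o : Option (ix E), (rep l o).length = _
  rw [Fintype.sum_option]
  change (List.replicate l.length Sym.i).length +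
    ∑ j : ix E, (l.flatMap (fun a => esc (rep a j))).length = _
  have key : ∑ j : ix E, (l.flatMap (fun a => esc (rep a j))).length =
      (l.map (fun a => Fintype.card (ix E) + 2 * size a)).sum := by
    induction l with
    | nil => simp
    | cons a l ih =>
      simp only [List.flatMap_cons, List.length_append, Finset.sum_add_distrib, ih,
        List.map_cons, List.sum_cons, length_esc, size, Finset.mul_sum]
      simp only [Finset.sum_const, Finset.card_univ, smul_eq_mul, mul_one]
      ring
  rw [key, List.length_replicate]
  clear key
  induction l with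
  | nil => simp
  | cons a l ih =>
    simp only [List.length_cons, List.map_cons, List.sum_cons] at *
    omega

theorem size_cons (a : E) (l : List E) :
    size (a :: l) = 1 + Fintype.card (ix E) + 2 * size a + size l := by
  rw [size_listE, size_listE, List.map_cons, List.sum_cons]

theorem size_append (l m : List E) : size (l ++ m) = size l + size m := by
  rw [size_listE, size_listE, size_listE, List.map_append, List.sum_append]

theorem size_nilE : size ([] : List E) = 0 := by rw [size_listE]; rfl

theorem length_le_size (l : List E) : l.length ≤ size l := by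
  induction l with
  | nil => simp
  | cons a l ih => rw [size_cons, List.length_cons]; omega

theorem size_le_of_mem {l : List E} {a : E} (h : a ∈ l) : size a ≤ size l := by
  induction l with
  | nil => simp at h
  | cons b l ih =>
    rw [size_cons]
    rcases List.mem_cons.1 h with rfl | h
    · omega
    · have := ih h; omega

/-- cons on lists of structured objects -/
theorem FPon.consE {D : E → Prop} {a : E → F} {l : E → List F} (ha : FPon D a) (hl : FPon D l) :
    FPon D (fun x => a x :: l x) := by
  apply FPon.pi
  rintro (_ | j)
  · refine (FPon.cons Sym.i (hl.comp_rep none)).congr (fun x _ => ?_)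
    change _ = List.replicate ((l x).length + 1) Sym.i
    rw [List.replicate_succ]
    rfl
  · have h1 : FP (fun w : List Sym => esc w) :=
      FP.append (FP.subst FP.id _) (FP.const _)
    have h2 : FPon D (fun x => esc (rep (a x) j)) :=
      FPon.comp h1 (ha.comp_rep j) (fun _ _ => trivial)
    have h3 : FP (fun y : List Sym × List Sym => y.1 ++ y.2) := FP.append FP.fst FP.snd
    exact FPon.comp h3 (FPon.pair h2 (hl.comp_rep (some j))) (fun _ _ => trivial)

theorem FP.consE {a : E → F} {l : E → List F} (ha : FP a) (hl : FP l) :
    FP (fun x => a x :: l x) := FPon.consE ha hl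

/-- one step of decoding -/
def unescStep (a : Sym) (s : (Bool × Bool) × (List Sym × List Sym)) :
    (Bool × Bool) × (List Sym × List Sym) :=
  if s.1.1 then (s.1, (s.2.1, a :: s.2.2))
  else if s.1.2 then ((false, false), (a :: s.2.1, s.2.2))
  else if a = Sym.y then ((true, false), s.2) else ((false, true), s.2)

/-- decoding of `esc` -/
def unesc (l : List Sym) : List Sym × List Sym :=
  let r := l.foldl (fun s a => unescStep a s) ((false, false), ([], []))
  (r.2.1.reverse, r.2.2.reverse)

theorem unesc_esc (w r : List Sym) : unesc (esc w ++ r) = (w, r) := by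
  have h1 : ∀ (w u : List Sym), (w.flatMap (fun a => [Sym.x, a])).foldl (fun s a => unescStep a s)
      ((false, false), (u, [])) = ((false, false), (w.reverse ++ u, [])) := by
    intro w
    induction w with
    | nil => intro u; rfl
    | cons a w ih =>
      intro u
      rw [List.flatMap_cons, List.foldl_append]
      have : List.foldl (fun s a => unescStep a s) ((false, false), (u, [])) [Sym.x, a] =
          ((false, false), (a :: u, [])) := by
        simp [unescStep]
      rw [this, ih]
      simp
  have h2 : ∀ (r u v : List Sym), r.foldl (fun s a => unescStep a s) ((true, false), (u, v)) =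
      ((true, false), (u, r.reverse ++ v)) := by
    intro r
    induction r with
    | nil => intro u v; rfl
    | cons a r ih =>
      intro u v
      rw [List.foldl_cons]
      have : unescStep a ((true, false), (u, v)) = ((true, false), (u, a :: v)) := by
        simp [unescStep]
      rw [this, ih]
      simp
  unfold unesc esc
  rw [List.foldl_append, List.foldl_append, h1]
  have : List.foldl (fun s a => unescStep a s) ((false, false), (w.reverse ++ [], [])) [Sym.y] =
      ((true, false), (w.reverse ++ [], [])) := by
    simp [unescStep]
  rw [this, h2]
  simp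

theorem FP.unesc {l : E → List Sym} (hl : FP l) : FP (fun x => unesc (l x)) := by
  have hs : FP (fun x => (l x).foldl (fun s a => unescStep a s)
      ((false, false), (([] : List Sym), ([] : List Sym)))) := by
    refine FP.foldl_growth hl (init := fun _ => ((false, false), (([] : List Sym), [])))
      (FP.const _) (step := fun a y => unescStep a y.2) (fun a => ?_) 4 ?_
    · unfold unescStep
      have e1 : FP (fun y : E × ((Bool × Bool) × (List Sym × List Sym)) => y.2.1) :=
        FP.comp FP.fst FP.snd
      have e2 : FP (fun y : E × ((Bool × Bool) × (List Sym × List Sym)) => y.2.2) :=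
        FP.comp FP.snd FP.snd
      refine FP.ite (FP.comp FP.fst e1) ?_ (FP.ite (FP.comp FP.snd e1) ?_ ?_)
      · exact FP.pair e1 (FP.pair (FP.comp FP.fst e2) (FP.cons a (FP.comp FP.snd e2)))
      · exact FP.pair (FP.const _) (FP.pair (FP.cons a (FP.comp FP.fst e2)) (FP.comp FP.snd e2))
      · by_cases h : a = Sym.y
        · simp only [h, if_true]
          exact FP.pair (FP.const _) e2
        · simp only [h, if_false]
          exact FP.pair (FP.const _) e2
    · intro a x s
      obtain ⟨⟨b1, b2⟩, w, r⟩ := s
      have h1 := size_bool true
      have h2 := size_bool false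
      simp only [unescStep]
      split_ifs <;> simp only [size_pair, size_list, List.length_cons, Polynomial.eval_ofNat] <;>
        omega
  exact FP.pair (FP.reverse (FP.comp FP.fst (FP.comp FP.snd hs)))
    (FP.reverse (FP.comp FP.snd (FP.comp FP.snd hs)))

/-- head and tail of a nonempty list -/
theorem FPon.uncons [Inhabited E] :
    FPon (fun l : List E => l ≠ []) (fun l => (l.head?.getD default, l.tail)) := by
  apply FPon.pi
  rintro (j | _ | j)
  · have h1 : FP (fun l : List E => (TM.unesc (rep l (some j))).1) :=
      FP.comp FP.fst (FP.unesc (FPon.comp_rep (D := fun _ => True) (f := fun l : List E => l)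
        FP.id (some j)))
    refine (h1.on (D := fun l : List E => l ≠ [])).congr (fun l hl => ?_)
    cases l with
    | nil => exact absurd rfl hl
    | cons a l =>
      change (TM.unesc (esc (rep a j) ++ _)).1 = rep a j
      rw [unesc_esc]
  · have h1 : FP (fun l : List E => (rep l none).tail) :=
      FP.tail (FPon.comp_rep (D := fun _ => True) (f := fun l : List E => l) FP.id none)
    refine (h1.on (D := fun l : List E => l ≠ [])).congr (fun l hl => ?_)
    cases l with
    | nil => exact absurd rfl hl
    | cons a l =>
      change (List.replicate (l.length + 1) Sym.i).tail = List.replicate l.length Sym.i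
      rw [List.replicate_succ]
      rfl
  · have h1 : FP (fun l : List E => (TM.unesc (rep l (some j))).2) :=
      FP.comp FP.snd (FP.unesc (FPon.comp_rep (D := fun _ => True) (f := fun l : List E => l)
        FP.id (some j)))
    refine (h1.on (D := fun l : List E => l ≠ [])).congr (fun l hl => ?_)
    cases l with
    | nil => exact absurd rfl hl
    | cons a l =>
      change (TM.unesc (esc (rep a j) ++ l.flatMap (fun a => esc (rep a j)))).2 = _
      rw [unesc_esc]
      rfl

/-- Case distinction on a list of structured objects. -/
theorem FPon.caseList [Inhabited F] {D : E → Prop} {l : E → List F} (hl : FPon D l) {g0 : E → G}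
    (h0 : FPon (fun x => D x ∧ l x = []) g0) {g : E × F × List F → G}
    (hg : FPon (fun y : E × F × List F => D y.1 ∧ l y.1 = y.2.1 :: y.2.2) g) {f : E → G}
    (hf0 : ∀ x, D x → l x = [] → f x = g0 x)
    (hf : ∀ x a t, D x → l x = a :: t → f x = g (x, a, t)) : FPon D f := by
  have hl' := hl.comp_rep none
  have hnil : ∀ x, (rep (l x) none = []) ↔ l x = [] := by
    intro x
    change List.replicate (l x).length Sym.i = [] ↔ _
    simp
  refine FPon.case hl' (g0 := g0) (g := fun _ y =>
    g (y.1, ((l y.1).head?.getD default, (l y.1).tail))) (h0.mono ?_) (fun a => ?_) ?_ ?_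
  · rintro x ⟨h1, h2⟩
    exact ⟨h1, (hnil x).1 h2⟩
  · have e1 : FPon (fun y : E × List Sym => D y.1 ∧ rep (l y.1) none = a :: y.2)
        (fun y => l y.1) := FPon.comp hl FP.fst.on (fun y hy => hy.1)
    have e2 : FPon (fun y : E × List Sym => D y.1 ∧ rep (l y.1) none = a :: y.2)
        (fun y => ((l y.1).head?.getD default, (l y.1).tail)) :=
      FPon.comp (FPon.uncons (E := F)) e1 (fun y hy h => by
        have := (hnil y.1).2 h
        rw [this] at hy
        exact absurd hy.2 (by simp))
    refine FPon.comp hg (FPon.pair FP.fst.on e2) ?_
    rintro ⟨x, t⟩ ⟨h1, h2⟩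
    refine ⟨h1, ?_⟩
    simp only at h2 ⊢
    cases hlx : l x with
    | nil =>
      rw [(hnil x).2 hlx] at h2
      exact absurd h2 (by simp)
    | cons b m => simp
  · intro x hx h2
    exact hf0 x hx ((hnil x).1 h2)
  · intro x a t hx h2
    cases hlx : l x with
    | nil =>
      rw [(hnil x).2 hlx] at h2
      exact absurd h2 (by simp)
    | cons b m =>
      rw [hf x b m hx hlx]
      simp

theorem FP.caseList [Inhabited F] {l : E → List F} (hl : FP l) {g0 : E → G}
    (h0 : FP g0) {g : E × F × List F → G} (hg : FP g) {f : E → G}
    (hf0 : ∀ x, l x = [] → f x = g0 x)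
    (hf : ∀ x a t, l x = a :: t → f x = g (x, a, t)) : FP f :=
  FPon.caseList hl h0.on hg.on (fun x _ => hf0 x) (fun x a t _ => hf x a t)

/-- Bounded iteration along a list of structured objects. -/
theorem FP.foldlE [Inhabited F] {l : E → List F} (hl : FP l) {init : E → G} (h0 : FP init)
    {step : E × G × F → G} (hg : FP step)
    (hB : ∃ q : Polynomial ℕ, ∀ x, ∀ l', l' <+: l x →
      size (List.foldl (fun s a => step (x, s, a)) (init x) l') ≤ q.eval (size x)) :
    FP (fun x => List.foldl (fun s a => step (x, s, a)) (init x) (l x)) := by
  obtain ⟨q, hq⟩ := hB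
  obtain ⟨ql, hql⟩ := hl.size_le
  let step' : E × (List F × G) → List F × G := fun y =>
    match y.2.1 with
    | [] => ([], y.2.2)
    | a :: t => (t, step (y.1, y.2.2, a))
  have hstep' : FP step' := by
    refine FP.caseList (l := fun y : E × (List F × G) => y.2.1) (FP.comp FP.fst FP.snd)
      (g0 := fun y => ([], y.2.2)) (FP.pair (FP.const _) (FP.comp FP.snd FP.snd))
      (g := fun z => (z.2.2, step (z.1.1, z.1.2.2, z.2.1))) ?_ ?_ ?_
    · refine FP.pair (FP.comp FP.snd FP.snd) (FP.comp hg (FP.pair (FP.comp FP.fst FP.fst)
        (FP.pair (FP.comp FP.snd (FP.comp FP.snd FP.fst)) (FP.comp FP.fst FP.snd))))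
    · rintro ⟨x, m, s⟩ h
      simp only at h
      subst h
      rfl
    · rintro ⟨x, m, s⟩ a t h
      simp only at h
      subst h
      rfl
  have key : ∀ (x : E) (m : List F) (s : G) (k : ℕ),
      List.foldl (fun s _ => step' (x, s)) (m, s) (List.replicate k Sym.i) =
        (m.drop k, List.foldl (fun s a => step (x, s, a)) s (m.take k)) := by
    intro x m
    induction m with
    | nil =>
      intro s k
      induction k with
      | zero => rfl
      | succ k ih =>
        rw [List.replicate_succ, List.foldl_cons]
        change List.foldl _ (([], s) : List F × G) _ = _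
        rw [ih]
        simp
    | cons a m ih =>
      intro s k
      cases k with
      | zero => rfl
      | succ k =>
        rw [List.replicate_succ, List.foldl_cons]
        change List.foldl _ ((m, step (x, s, a)) : List F × G) _ = _
        rw [ih]
        simp
  have hlen : FP (fun x => List.replicate (l x).length Sym.i) := hl.comp_rep none
  have hfold := FP.foldl hlen (init := fun x => (l x, init x)) (FP.pair hl h0)
    (step := fun _ => step') (fun _ => hstep') ⟨ql + q, ?_⟩
  · refine (FP.comp FP.snd hfold).congr (fun x => ?_)
    have := key x (l x) (init x) (l x).length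
    rw [this]
    simp
  · intro x l' hl'
    obtain ⟨k, hk, rfl⟩ : ∃ k, k ≤ (l x).length ∧ l' = List.replicate k Sym.i := by
      refine ⟨l'.length, ?_, ?_⟩
      · have := hl'.length_le
        simpa using this
      · apply List.eq_replicate_of_mem
        intro b hb
        exact (List.mem_replicate.1 (hl'.subset hb)).2
    rw [key x (l x) (init x) k, size_pair]
    have h1 : size ((l x).drop k) ≤ size (l x) := by
      have e : size (l x) = size ((l x).take k) + size ((l x).drop k) := by
        rw [← size_append, List.take_append_drop]
      omega
    have h2 := hq x ((l x).take k) (List.take_prefix _ _)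
    have h3 := hql x
    simp only [Polynomial.eval_add]
    omega

/-- Iteration along a list with bounded growth. -/
theorem FP.foldlE_growth [Inhabited F] {l : E → List F} (hl : FP l) {init : E → G} (h0 : FP init)
    {step : E × G × F → G} (hg : FP step) (q : Polynomial ℕ)
    (hq : ∀ x s a, a ∈ l x → size (step (x, s, a)) ≤ size s + q.eval (size x)) :
    FP (fun x => List.foldl (fun s a => step (x, s, a)) (init x) (l x)) := by
  obtain ⟨pl, hpl⟩ := hl.size_le
  obtain ⟨p0, hp0⟩ := h0.size_le
  refine FP.foldlE hl h0 hg ⟨p0 + pl * q, fun x l' hl' => ?_⟩
  have key : ∀ (l' : List F) (s : G), (∀ a ∈ l', a ∈ l x) →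
      size (List.foldl (fun s a => step (x, s, a)) s l') ≤
      size s + l'.length * q.eval (size x) := by
    intro l'
    induction l' with
    | nil => intro s _; simp
    | cons a l' ih =>
      intro s hs
      have h1 := ih (step (x, s, a)) (fun b hb => hs b (by simp [hb]))
      have h2 := hq x s a (hs a (by simp))
      simp only [List.foldl_cons, List.length_cons, Nat.succ_mul]
      omega
  have h1 := key l' (init x) (fun a ha => hl'.subset ha)
  have h2 : l'.length ≤ pl.eval (size x) :=
    (hl'.length_le).trans ((length_le_size _).trans (hpl x))
  have h3 := hp0 x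
  have h4 : l'.length * q.eval (size x) ≤ pl.eval (size x) * q.eval (size x) :=
    Nat.mul_le_mul_right _ h2
  simp only [Polynomial.eval_add, Polynomial.eval_mul]
  omega

theorem FP.nilE : FP (fun _ : E => ([] : List F)) := FP.const _

theorem FP.revAppendE [Inhabited F] {l m : E → List F} (hl : FP l) (hm : FP m) :
    FP (fun x => (l x).reverse ++ m x) := by
  obtain ⟨pl, hpl⟩ := hl.size_le
  have := FP.foldlE_growth hl hm (step := fun y : E × List F × F => y.2.2 :: y.2.1)
    (FP.consE (FP.comp FP.snd FP.snd) (FP.comp FP.fst FP.snd))
    (Polynomial.C (1 + Fintype.card (ix F)) + 2 * pl) (by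
      intro x s a ha
      have h1 := (size_le_of_mem ha).trans (hpl x)
      rw [size_cons]
      simp only [Polynomial.eval_add, Polynomial.eval_C, Polynomial.eval_mul,
        Polynomial.eval_ofNat]
      omega)
  refine this.congr (fun x => ?_)
  simp only
  generalize m x = s
  induction l x generalizing s with
  | nil => simp
  | cons a l ih => simp [ih]

theorem FP.reverseE [Inhabited F] {l : E → List F} (hl : FP l) : FP (fun x => (l x).reverse) :=
  (FP.revAppendE hl (FP.const [])).congr (fun x => by simp)

theorem FP.appendE [Inhabited F] {l m : E → List F} (hl : FP l) (hm : FP m) :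
    FP (fun x => l x ++ m x) :=
  (FP.revAppendE hl.reverseE hm).congr (fun x => by simp)

theorem FP.lengthE {l : E → List F} (hl : FP l) : FP (fun x => (l x).length) :=
  FP.ofUnary (hl.comp_rep none)

/-- flatMap with a parameter -/
theorem FP.flatMapE [Inhabited F] [Inhabited G] {l : E → List F} (hl : FP l)
    {g : E × F → List G} (hg : FP g) : FP (fun x => (l x).flatMap (fun a => g (x, a))) := by
  obtain ⟨pl, hpl⟩ := hl.size_le
  obtain ⟨pg, hpg⟩ := hg.size_le
  have := FP.foldlE_growth hl (init := fun _ => ([] : List G)) (FP.const _)
    (step := fun y : E × List G × F => (g (y.1, y.2.2)).reverse ++ y.2.1)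
    (FP.revAppendE (FP.comp hg (FP.pair FP.fst (FP.comp FP.snd FP.snd))) (FP.comp FP.fst FP.snd))
    (pg.comp (Polynomial.X + pl)) (by
      intro x s a ha
      have h1 := (size_le_of_mem ha).trans (hpl x)
      have h2 := hpg (x, a)
      have h3 : size (x, a) ≤ size x + pl.eval (size x) := by
        rw [size_pair]; exact Nat.add_le_add_left h1 _
      have h4 := poly_mono pg h3
      rw [size_append]
      have h5 : size (g (x, a)).reverse = size (g (x, a)) := by
        rw [size_listE, size_listE, List.map_reverse, List.sum_reverse]
      rw [h5]
      simp only [Polynomial.eval_comp, Polynomial.eval_add, Polynomial.eval_X]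
      omega)
  refine (this.reverseE).congr (fun x => ?_)
  have key : ∀ (l : List F) (s : List G),
      (List.foldl (fun s a => (g (x, a)).reverse ++ s) s l).reverse =
      s.reverse ++ l.flatMap (fun a => g (x, a)) := by
    intro l
    induction l with
    | nil => simp
    | cons a l ih => intro s; rw [List.foldl_cons, ih]; simp
  simpa using key (l x) []

/-- flatMap with a parameter, producing a string -/
theorem FP.flatMapS [Inhabited F] {l : E → List F} (hl : FP l)
    {g : E × F → List Sym} (hg : FP g) : FP (fun x => (l x).flatMap (fun a => g (x, a))) := by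
  obtain ⟨pl, hpl⟩ := hl.size_le
  obtain ⟨pg, hpg⟩ := hg.size_le
  have := FP.foldlE_growth hl (init := fun _ => ([] : List Sym)) (FP.const _)
    (step := fun y : E × List Sym × F => (g (y.1, y.2.2)).reverse ++ y.2.1)
    (FP.revAppend (FP.comp hg (FP.pair FP.fst (FP.comp FP.snd FP.snd))) (FP.comp FP.fst FP.snd))
    (pg.comp (Polynomial.X + pl)) (by
      intro x s a ha
      have h1 := (size_le_of_mem ha).trans (hpl x)
      have h2 := hpg (x, a)
      have h3 : size (x, a) ≤ size x + pl.eval (size x) := by
        rw [size_pair]; exact Nat.add_le_add_left h1 _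
      have h4 := poly_mono pg h3
      simp only [size_list, List.length_append, List.length_reverse] at *
      simp only [Polynomial.eval_comp, Polynomial.eval_add, Polynomial.eval_X]
      omega)
  refine (FP.reverse this).congr (fun x => ?_)
  have key : ∀ (l : List F) (s : List Sym),
      (List.foldl (fun s a => (g (x, a)).reverse ++ s) s l).reverse =
      s.reverse ++ l.flatMap (fun a => g (x, a)) := by
    intro l
    induction l with
    | nil => simp
    | cons a l ih => intro s; rw [List.foldl_cons, ih]; simp
  simpa using key (l x) []

/-- map with a parameter -/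
theorem FP.mapE [Inhabited F] [Inhabited G] {l : E → List F} (hl : FP l)
    {g : E × F → G} (hg : FP g) : FP (fun x => (l x).map (fun a => g (x, a))) :=
  (FP.flatMapE hl (g := fun y => [g y]) (FP.consE hg (FP.const []))).congr (fun x => by
    induction l x with
    | nil => rfl
    | cons a l ih => simp [ih])

/-- the list `[0, …, n - 1]` -/
theorem FP.range {n : E → ℕ} (hn : FP n) : FP (fun x => List.range (n x)) := by
  have h1 : FP (fun x => ((fun s : List ℕ => s.length :: s)^[n x] ([] : List ℕ))) := by
    obtain ⟨p, hp⟩ := hn.size_le
    have hlen : FP (fun x => List.replicate (n x) Sym.i) := hn.unary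
    have hrep : ∀ k : ℕ, (fun s : List ℕ => s.length :: s)^[k] [] = (List.range k).reverse := by
      intro k
      induction k with
      | zero => rfl
      | succ k ih => rw [Function.iterate_succ_apply', ih, List.range_succ]; simp
    have := FP.foldl hlen (init := fun _ => ([] : List ℕ)) (FP.const _)
      (step := fun _ y => y.2.length :: y.2)
      (fun _ => FP.consE (FP.lengthE FP.snd) FP.snd) ⟨p * (2 + 2 * p), ?_⟩
    · refine this.congr (fun x => ?_)
      simp only
      generalize ([] : List ℕ) = s
      induction n x generalizing s with
      | zero => rfl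
      | succ k ih => rw [List.replicate_succ, List.foldl_cons, ih, Function.iterate_succ_apply]
    · intro x l' hl'
      obtain ⟨k, hk, rfl⟩ : ∃ k, k ≤ n x ∧ l' = List.replicate k Sym.i := by
        refine ⟨l'.length, ?_, ?_⟩
        · have := hl'.length_le
          simpa using this
        · apply List.eq_replicate_of_mem
          intro b hb
          exact (List.mem_replicate.1 (hl'.subset hb)).2
      have e1 : List.foldl (fun (s : List ℕ) (_ : Sym) => s.length :: s) []
          (List.replicate k Sym.i) = (fun s : List ℕ => s.length :: s)^[k] [] := by
        generalize ([] : List ℕ) = s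
        clear hk hl'
        induction k generalizing s with
        | zero => rfl
        | succ k ih => rw [List.replicate_succ, List.foldl_cons, ih, Function.iterate_succ_apply]
      rw [e1, hrep]
      have e2 : ∀ k m : ℕ, k ≤ m → size ((List.range k).reverse) ≤ k * (2 + 2 * m) := by
        intro k m
        induction k with
        | zero => intro _; simp [size_nilE]
        | succ k ih =>
          intro hk
          rw [List.range_succ, List.reverse_append]
          simp only [List.reverse_cons, List.reverse_nil, List.nil_append, List.singleton_append]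
          rw [size_cons, size_nat]
          have := ih (by omega)
          have hc : Fintype.card (ix ℕ) = 1 := rfl
          have e : (k + 1) * (2 + 2 * m) = k * (2 + 2 * m) + (2 + 2 * m) := by ring
          rw [hc, e]
          omega
      have h5 := hp x
      rw [size_nat] at h5
      have h6 := e2 k (p.eval (size x)) (by omega)
      refine h6.trans ?_
      simp only [Polynomial.eval_mul, Polynomial.eval_add, Polynomial.eval_ofNat]
      exact Nat.mul_le_mul_right _ (by omega)
  refine (FP.reverseE h1).congr (fun x => ?_)
  induction n x with
  | zero => rfl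
  | succ k ih =>
    rw [Function.iterate_succ_apply', List.reverse_cons, ih, List.range_succ]
    congr 2
    have : ((fun s : List ℕ => s.length :: s)^[k] []).length = k := by
      clear ih
      induction k with
      | zero => rfl
      | succ k ih => rw [Function.iterate_succ_apply', List.length_cons, ih]
    exact this

/-- drop the first elements -/
theorem FP.tailE [Inhabited F] {l : E → List F} (hl : FP l) : FP (fun x => (l x).tail) :=
  FP.caseList hl (g0 := fun _ => []) (FP.const _) (g := fun z => z.2.2) (FP.comp FP.snd FP.snd)
    (fun x h => by simp [h]) (fun x a t h => by simp [h])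

theorem size_tail_le (l : List E) : size l.tail ≤ size l := by
  cases l with
  | nil => simp
  | cons a l => rw [size_cons]; simp only [List.tail_cons]; omega

theorem FP.dropE [Inhabited F] {l : E → List F} (hl : FP l) {n : E → ℕ} (hn : FP n) :
    FP (fun x => (l x).drop (n x)) := by
  have := FP.natRec_growth hn hl (step := fun y => y.2.tail) (FP.tailE FP.snd) 0 (by
    intro x s
    simpa using size_tail_le s)
  refine this.congr (fun x => ?_)
  simp only
  generalize l x = m
  induction n x generalizing m with
  | zero => rfl
  | succ k ih => rw [Function.iterate_succ_apply, ih]; simp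

/-- the element with a given index -/
theorem FP.getE [Inhabited F] {l : E → List F} (hl : FP l) {n : E → ℕ} (hn : FP n) (d : F) :
    FP (fun x => (l x)[n x]?.getD d) :=
  FP.caseList (FP.dropE hl hn) (g0 := fun _ => d) (FP.const _) (g := fun z => z.2.1)
    (FP.comp FP.fst FP.snd)
    (fun x h => by
      have : (l x)[n x]? = none := by
        rw [List.getElem?_eq_none_iff]
        exact List.drop_eq_nil_iff.1 h
      rw [this]; rfl)
    (fun x a t h => by
      have : (l x)[n x]? = some a := by
        rw [← List.head?_drop, h]
        rfl
      rw [this]; rfl)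

/-- equality of strings -/
theorem FP.eqS {l m : E → List Sym} (hl : FP l) (hm : FP m) :
    FP (fun x => decide (l x = m x)) := by
  have h1 : FP (fun x => List.foldl (fun (s : List Sym × Bool) (a : Sym) =>
      (s.1.tail, s.2 && decide (s.1.head? = some a))) (m x, true) (l x)) := by
    refine FP.foldl_growth hl (init := fun x => (m x, true)) (FP.pair hm (FP.const _))
      (step := fun a y => (y.2.1.tail, y.2.2 && decide (y.2.1.head? = some a))) (fun a => ?_) 1 ?_
    · exact FP.pair (FP.tail (FP.comp FP.fst FP.snd)) (FP.and (FP.comp FP.snd FP.snd)
        (FP.headIs (FP.comp FP.fst FP.snd) a))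
    · intro a x s
      simp only [size_pair, size_list, List.length_tail, Polynomial.eval_one]
      have := size_bool (s.2 && decide (s.1.head? = some a))
      omega
  refine (FP.and (FP.comp FP.snd h1) (FP.isEmpty (FP.comp FP.fst h1))).congr (fun x => ?_)
  have key : ∀ (l m : List Sym) (b : Bool),
      (List.foldl (fun (s : List Sym × Bool) (a : Sym) =>
        (s.1.tail, s.2 && decide (s.1.head? = some a))) (m, b) l) =
      (m.drop l.length, b && decide (m.take l.length = l)) := by
    intro l
    induction l with
    | nil => simp
    | cons a l ih =>
      intro m b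
      rw [List.foldl_cons, ih]
      cases m with
      | nil => simp
      | cons c m =>
        refine Prod.ext (by simp) ?_
        rw [Bool.eq_iff_iff]
        simp [and_assoc]
  rw [key]
  simp only [Bool.true_and]
  by_cases h : l x = m x
  · rw [h]; simp
  · simp only [h, decide_false, Bool.and_eq_false_iff, decide_eq_false_iff_not]
    by_contra hcon
    push Not at hcon
    obtain ⟨h2, h3⟩ := hcon
    simp only [ne_eq, Bool.not_eq_false, List.isEmpty_iff, List.drop_eq_nil_iff] at h3
    rw [List.take_of_length_le h3] at h2
    exact h h2.symm

end Pool.Agent.PartSep.TM
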