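import Mathlib

/-!
A small structured programming language for multi-stack machines, and its compilation to
the TM2 machines of Mathlib.
-/

namespace Pool.Agent.PartSep.TM

open Turing

/-- Structured programs acting on stacks `K` over the alphabet `A`. -/
inductive Prog (K A : Type) : Type
  | skip : Prog K A
  | push (k : K) (a : A) : Prog K A
  | seq (p q : Prog K A) : Prog K A
  | case (k : K) (c : Option A → Prog K A) : Prog K A
  | loop (k : K) (c : A → Prog K A) : Prog K A

namespace Prog

variable {K A : Type}

section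
variable [DecidableEq K]

/-- `Run p S S' t`: started in the stacks `S`, the program `p` ends in the stacks `S'` at
cost `t`. -/
inductive Run : Prog K A → (K → List A) → (K → List A) → ℕ → Prop
  | skip (S) : Run .skip S S 0
  | push (k a S) : Run (.push k a) S (Function.update S k (a :: S k)) 1
  | seq {p q S S' S'' t t'} : Run p S S' t → Run q S' S'' t' → Run (.seq p q) S S'' (t + t')
  | case_nil {k c S S' t} : S k = [] → Run (c none) S S' t → Run (.case k c) S S' (t + 1)
  | case_cons {k c S S' t a l} : S k = a :: l → Run (c (some a)) (Function.update S k l) S' t →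
      Run (.case k c) S S' (t + 1)
  | loop_nil {k c S} : S k = [] → Run (.loop k c) S S 2
  | loop_cons {k c S S' S'' t t' a l} : S k = a :: l →
      Run (c a) (Function.update S k l) S' t → Run (.loop k c) S' S'' t' →
      Run (.loop k c) S S'' (t + t' + 2)

end

/-- labels needed inside a program -/
def Lab : Prog K A → Type
  | skip => Empty
  | push _ _ => Empty
  | seq p q => Lab p ⊕ Lab q
  | case _ c => Σ o : Option A, Option (Lab (c o))
  | loop _ c => Option (Option (Σ a : A, Option (Lab (c a))))

instance Lab.finite [Finite A] : (p : Prog K A) → Finite (Lab p)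
  | skip => inferInstanceAs (Finite Empty)
  | push _ _ => inferInstanceAs (Finite Empty)
  | seq p q => by
    have := Lab.finite p
    have := Lab.finite q
    exact inferInstanceAs (Finite (Lab p ⊕ Lab q))
  | case _ c => by
    have := fun o => Lab.finite (c o)
    exact inferInstanceAs (Finite (Σ o : Option A, Option (Lab (c o))))
  | loop _ c => by
    have := fun o => Lab.finite (c o)
    exact inferInstanceAs (Finite (Option (Option (Σ a : A, Option (Lab (c a))))))

variable {Γ : K → Type} (ι : ∀ k, A → Γ k) (π : ∀ k, Γ k → A) {Λ : Type}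

/-- the statement executing `p` and then continuing with `k` -/
def comp : (p : Prog K A) → (Lab p → Λ) → TM2.Stmt Γ Λ (Option A) → TM2.Stmt Γ Λ (Option A)
  | skip, _, Q => Q
  | push k a, _, Q => .push k (fun _ => ι k a) Q
  | seq p q, e, Q => comp p (fun l => e (Sum.inl l)) (comp q (fun l => e (Sum.inr l)) Q)
  | case k _, e, _ => .pop k (fun _ o => o.map (π k)) (.goto fun s => e ⟨s, none⟩)
  | loop _ _, e, _ => .goto fun _ => e none

/-- the statements at the labels inside `p` -/
def body : (p : Prog K A) → (Lab p → Λ) → TM2.Stmt Γ Λ (Option A) → Lab p →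
    TM2.Stmt Γ Λ (Option A)
  | seq p q, e, Q, Sum.inl l =>
    body p (fun l => e (Sum.inl l)) (comp ι π q (fun l => e (Sum.inr l)) Q) l
  | seq _ q, e, Q, Sum.inr l => body q (fun l => e (Sum.inr l)) Q l
  | case _ c, e, Q, ⟨o, none⟩ => comp ι π (c o) (fun l => e ⟨o, some l⟩) Q
  | case _ c, e, Q, ⟨o, some l⟩ => body (c o) (fun l => e ⟨o, some l⟩) Q l
  | loop k _, e, _, none => .pop k (fun _ o => o.map (π k)) (.goto fun s =>
      match s with
      | none => e (some none)
      | some a => e (some (some ⟨a, none⟩)))
  | loop _ _, _, Q, some none => Q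
  | loop _ c, e, _, some (some ⟨a, none⟩) =>
    comp ι π (c a) (fun l => e (some (some ⟨a, some l⟩))) (.goto fun _ => e none)
  | loop _ c, e, _, some (some ⟨a, some l⟩) =>
    body (c a) (fun l => e (some (some ⟨a, some l⟩))) (.goto fun _ => e none) l

/-- All pushed symbols are representable. -/
def Ok : Prog K A → Prop
  | skip => True
  | push k a => π k (ι k a) = a
  | seq p q => Ok p ∧ Ok q
  | case _ c => ∀ o, Ok (c o)
  | loop _ c => ∀ a, Ok (c a)

variable [DecidableEq K]

theorem map_update (S : ∀ k, List (Γ k)) (k : K) (l : List (Γ k)) :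
    (fun j => (Function.update S k l j).map (π j)) =
      Function.update (fun j => (S j).map (π j)) k (l.map (π k)) := by
  funext j
  by_cases h : j = k
  · subst h; simp
  · simp [Function.update_of_ne h]

/-- `n` steps lead from `c` to `c'`. -/
def Steps (M : Λ → TM2.Stmt Γ Λ (Option A)) (n : ℕ) (c c' : TM2.Cfg Γ Λ (Option A)) : Prop :=
  (flip bind (TM2.step M))^[n] (some c) = some c'

theorem Steps.trans {M : Λ → TM2.Stmt Γ Λ (Option A)} {n m : ℕ}
    {c c' c'' : TM2.Cfg Γ Λ (Option A)} (h : Steps M n c c') (h' : Steps M m c' c'') :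
    Steps M (n + m) c c'' := by
  unfold Steps at *
  rw [Nat.add_comm, Function.iterate_add_apply, h, h']

theorem Steps.zero {M : Λ → TM2.Stmt Γ Λ (Option A)} (c : TM2.Cfg Γ Λ (Option A)) :
    Steps M 0 c c := rfl

theorem Steps.one {M : Λ → TM2.Stmt Γ Λ (Option A)} {c c' : TM2.Cfg Γ Λ (Option A)}
    (h : TM2.step M c = some c') : Steps M 1 c c' := h

theorem compile_correct {M : Λ → TM2.Stmt Γ Λ (Option A)} {p : Prog K A} {S S' : K → List A}
    {t : ℕ} (h : Run p S S' t) : Ok ι π p → ∀ (e : Lab p → Λ) (Q : TM2.Stmt Γ Λ (Option A)),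
      (∀ l, M (e l) = body ι π p e Q l) → ∀ (v : Option A) (T : ∀ k, List (Γ k)),
      (fun j => (T j).map (π j)) = S →
      ∃ (v' : Option A) (T' : ∀ k, List (Γ k)) (n : ℕ), n ≤ t ∧
        (fun j => (T' j).map (π j)) = S' ∧
        Steps M n (TM2.stepAux (comp ι π p e Q) v T) (TM2.stepAux Q v' T') := by
  induction h with
  | skip S =>
    intro _ e Q _ v T hT
    exact ⟨v, T, 0, le_rfl, hT, rfl⟩
  | push k a S =>
    intro hok e Q _ v T hT
    refine ⟨v, Function.update T k (ι k a :: T k), 0, by omega, ?_, rfl⟩
    rw [map_update, hT, List.map_cons]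
    have hok' : π k (ι k a) = a := hok
    rw [hok', ← hT]
  | @seq p q S S' S'' t t' _ _ ih1 ih2 =>
    intro hok e Q hM v T hT
    obtain ⟨v1, T1, n1, hn1, hT1, hs1⟩ := ih1 hok.1 (fun l => e (Sum.inl l))
      (comp ι π q (fun l => e (Sum.inr l)) Q) (fun l => hM (Sum.inl l)) v T hT
    obtain ⟨v2, T2, n2, hn2, hT2, hs2⟩ := ih2 hok.2 (fun l => e (Sum.inr l)) Q
      (fun l => hM (Sum.inr l)) v1 T1 hT1
    exact ⟨v2, T2, n1 + n2, by omega, hT2, hs1.trans hs2⟩
  | @case_nil k c S S' t hk _ ih =>
    intro hok e Q hM v T hT
    obtain ⟨v1, T1, n1, hn1, hT1, hs1⟩ := ih (hok none) (fun l => e ⟨none, some l⟩) Q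
      (fun l => hM ⟨none, some l⟩) none T hT
    refine ⟨v1, T1, 1 + n1, by omega, hT1, Steps.trans (Steps.one ?_) hs1⟩
    have hTk : T k = [] := by
      have := congrFun hT k
      rw [hk] at this
      simpa using this
    have hup : Function.update T k (T k).tail = T := by
      rw [hTk, List.tail_nil, ← hTk, Function.update_eq_self]
    have key : ∀ o : Option A, o = none → TM2.step M
        ⟨some (e (⟨o, none⟩ : Σ o : Option A, Option (Lab (c o)))), o, T⟩ =
        some (TM2.stepAux (comp ι π (c none) (fun l => e ⟨none, some l⟩) Q) none T) := by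
      rintro _ rfl
      rw [TM2.step]
      have := hM ⟨none, none⟩
      rw [this]
      rfl
    have h1 := key ((T k).head?.map (π k)) (by rw [hTk]; rfl)
    rw [← h1]
    change TM2.step M ⟨some (e (⟨(T k).head?.map (π k), none⟩ :
      Σ o : Option A, Option (Lab (c o)))), (T k).head?.map (π k),
      Function.update T k (T k).tail⟩ = _
    rw [hup]
  | @case_cons k c S S' t a l hk _ ih =>
    intro hok e Q hM v T hT
    have hTk : ∃ g gs, T k = g :: gs ∧ π k g = a ∧ gs.map (π k) = l := by
      have := congrFun hT k
      rw [hk] at this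
      cases hg : T k with
      | nil => rw [hg] at this; simp at this
      | cons g gs =>
        rw [hg] at this
        simp only [List.map_cons, List.cons.injEq] at this
        exact ⟨g, gs, rfl, this.1, this.2⟩
    obtain ⟨g, gs, hg, hga, hgs⟩ := hTk
    obtain ⟨v1, T1, n1, hn1, hT1, hs1⟩ := ih (hok (some a)) (fun l => e ⟨some a, some l⟩) Q
      (fun l => hM ⟨some a, some l⟩) (some a) (Function.update T k gs)
      (by rw [map_update, hT, hgs])
    refine ⟨v1, T1, 1 + n1, by omega, hT1, Steps.trans (Steps.one ?_) hs1⟩
    have key : ∀ o : Option A, o = some a → TM2.step M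
        ⟨some (e (⟨o, none⟩ : Σ o : Option A, Option (Lab (c o)))), o,
          Function.update T k gs⟩ =
        some (TM2.stepAux (comp ι π (c (some a)) (fun l => e ⟨some a, some l⟩) Q) (some a)
          (Function.update T k gs)) := by
      rintro _ rfl
      rw [TM2.step]
      have := hM ⟨some a, none⟩
      rw [this]
      rfl
    have h1 := key ((T k).head?.map (π k)) (by rw [hg]; simp [hga])
    rw [← h1]
    have h2 : (T k).tail = gs := by rw [hg]; rfl
    change TM2.step M ⟨some (e (⟨(T k).head?.map (π k), none⟩ :
      Σ o : Option A, Option (Lab (c o)))), (T k).head?.map (π k),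
      Function.update T k (T k).tail⟩ = _
    rw [h2]
  | @loop_nil k c S hk =>
    intro hok e Q hM v T hT
    have hTk : T k = [] := by
      have := congrFun hT k
      rw [hk] at this
      simpa using this
    have hup : Function.update T k (T k).tail = T := by
      rw [hTk, List.tail_nil, ← hTk, Function.update_eq_self]
    refine ⟨none, T, 1 + 1, le_rfl, hT, Steps.trans (c' := ⟨some (e (some none)), none, T⟩)
      (Steps.one ?_) (Steps.one ?_)⟩
    · simp only [comp, TM2.stepAux]
      rw [TM2.step]
      have := hM none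
      rw [this]
      simp only [body, TM2.stepAux]
      rw [hup, hTk]
      rfl
    · rw [TM2.step]
      have := hM (some none)
      rw [this]
      rfl
  | @loop_cons k c S S' S'' t t' a l hk _ _ ih1 ih2 =>
    intro hok e Q hM v T hT
    have hTk : ∃ g gs, T k = g :: gs ∧ π k g = a ∧ gs.map (π k) = l := by
      have := congrFun hT k
      rw [hk] at this
      cases hg : T k with
      | nil => rw [hg] at this; simp at this
      | cons g gs =>
        rw [hg] at this
        simp only [List.map_cons, List.cons.injEq] at this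
        exact ⟨g, gs, rfl, this.1, this.2⟩
    obtain ⟨g, gs, hg, hga, hgs⟩ := hTk
    obtain ⟨v1, T1, n1, hn1, hT1, hs1⟩ := ih1 (hok a)
      (fun l => e (some (some ⟨a, some l⟩))) (.goto fun _ => e none)
      (fun l => hM (some (some ⟨a, some l⟩))) (some a) (Function.update T k gs)
      (by rw [map_update, hT, hgs])
    obtain ⟨v2, T2, n2, hn2, hT2, hs2⟩ := ih2 hok e Q hM v1 T1 hT1
    refine ⟨v2, T2, (1 + 1) + (n1 + n2), by omega, hT2, Steps.trans
      (c' := TM2.stepAux (comp ι π (c a) (fun l => e (some (some ⟨a, some l⟩)))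
        (.goto fun _ => e none)) (some a) (Function.update T k gs)) (Steps.trans
      (c' := ⟨some (e (some (some ⟨a, none⟩))), some a, Function.update T k gs⟩)
      (Steps.one ?_) (Steps.one ?_)) (hs1.trans ?_)⟩
    · simp only [comp, TM2.stepAux]
      rw [TM2.step]
      have := hM none
      rw [this]
      simp only [body, TM2.stepAux, hg, List.head?_cons, Option.map_some, hga, List.tail_cons]
    · rw [TM2.step]
      have := hM (some (some ⟨a, none⟩))
      rw [this]
      rfl
    · exact hs2

end Prog

end Pool.Agent.PartSep.TM
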