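import Pool.Agent.Lib_MP_42fe4d_lc.TM.Prog

/-!
Basic programs and their running times.
-/

namespace Pool.Agent.PartSep.TM

namespace Prog

variable {K A : Type} [DecidableEq K]

/-- `p` leads from `S` to `S'` within cost `T`. -/
def Runs (p : Prog K A) (S S' : K → List A) (T : ℕ) : Prop := ∃ t ≤ T, Run p S S' t

theorem Runs.mono {p : Prog K A} {S S' : K → List A} {T T' : ℕ} (h : Runs p S S' T)
    (hT : T ≤ T') : Runs p S S' T' := by
  obtain ⟨t, ht, hr⟩ := h
  exact ⟨t, ht.trans hT, hr⟩

theorem Runs.seq {p q : Prog K A} {S S' S'' : K → List A} {T T' : ℕ} (h : Runs p S S' T)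
    (h' : Runs q S' S'' T') : Runs (.seq p q) S S'' (T + T') := by
  obtain ⟨t, ht, hr⟩ := h
  obtain ⟨t', ht', hr'⟩ := h'
  exact ⟨t + t', by omega, .seq hr hr'⟩

theorem Runs.skip (S : K → List A) : Runs .skip S S 0 := ⟨0, le_rfl, .skip S⟩

theorem Runs.push (k : K) (a : A) (S : K → List A) :
    Runs (.push k a) S (Function.update S k (a :: S k)) 1 := ⟨1, le_rfl, .push k a S⟩

theorem Runs.case_nil {k : K} {c : Option A → Prog K A} {S S' : K → List A} {T : ℕ}
    (hk : S k = []) (h : Runs (c none) S S' T) : Runs (.case k c) S S' (T + 1) := by
  obtain ⟨t, ht, hr⟩ := h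
  exact ⟨t + 1, by omega, .case_nil hk hr⟩

theorem Runs.case_cons {k : K} {c : Option A → Prog K A} {S S' : K → List A} {T : ℕ}
    {a : A} {l : List A}
    (hk : S k = a :: l) (h : Runs (c (some a)) (Function.update S k l) S' T) :
    Runs (.case k c) S S' (T + 1) := by
  obtain ⟨t, ht, hr⟩ := h
  exact ⟨t + 1, by omega, .case_cons hk hr⟩

theorem Runs.loop_nil {k : K} {c : A → Prog K A} {S : K → List A}
    (hk : S k = []) : Runs (.loop k c) S S 2 := ⟨2, le_rfl, .loop_nil hk⟩

theorem Runs.loop_cons {k : K} {c : A → Prog K A} {S S' S'' : K → List A} {T T' : ℕ}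
    {a : A} {l : List A}
    (hk : S k = a :: l) (h : Runs (c a) (Function.update S k l) S' T)
    (h' : Runs (.loop k c) S' S'' T') :
    Runs (.loop k c) S S'' (T + T' + 2) := by
  obtain ⟨t, ht, hr⟩ := h
  obtain ⟨t', ht', hr'⟩ := h'
  exact ⟨t + t' + 2, by omega, .loop_cons hk hr hr'⟩

/-- change of the final state -/
theorem Runs.congr {p : Prog K A} {S S' S'' : K → List A} {T : ℕ} (h : Runs p S S' T)
    (e : S' = S'') : Runs p S S'' T := e ▸ h

theorem Runs.congr₂ {p : Prog K A} {S S' S₀ S₀' : K → List A} {T : ℕ} (h : Runs p S S' T)
    (e₀ : S = S₀) (e : S' = S₀') : Runs p S₀ S₀' T := e ▸ e₀ ▸ h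

/-- The total size of the stacks grows at most by the cost. -/
theorem Run.size_le [Fintype K] {p : Prog K A} {S S' : K → List A} {t : ℕ} (h : Run p S S' t) :
    ∑ k, (S' k).length ≤ ∑ k, (S k).length + t := by
  have upd : ∀ (S : K → List A) (k : K) (l : List A),
      ∑ j, (Function.update S k l j).length + (S k).length =
        ∑ j, (S j).length + l.length := by
    intro S k l
    rw [← Finset.add_sum_erase Finset.univ _ (Finset.mem_univ k),
      ← Finset.add_sum_erase Finset.univ (fun j => (S j).length) (Finset.mem_univ k)]
    have : ∑ x ∈ Finset.univ.erase k, (Function.update S k l x).length =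
        ∑ x ∈ Finset.univ.erase k, (S x).length := by
      apply Finset.sum_congr rfl
      intro x hx
      rw [Function.update_of_ne (Finset.ne_of_mem_erase hx)]
    rw [this, Function.update_self]
    ring
  induction h with
  | skip S => simp
  | push k a S =>
    have := upd S k (a :: S k)
    simp only [List.length_cons] at this
    omega
  | seq _ _ ih1 ih2 => omega
  | case_nil _ _ ih => omega
  | @case_cons k c S S' t a l hk _ ih =>
    have := upd S k l
    rw [hk] at this
    simp only [List.length_cons] at this
    omega
  | loop_nil _ => omega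
  | @loop_cons k c S S' S'' t t' a l hk _ _ ih1 ih2 =>
    have := upd S k l
    rw [hk] at this
    simp only [List.length_cons] at this
    omega

/-- renaming of the stacks -/
def map {K' : Type} (e : K → K') : Prog K A → Prog K' A
  | skip => .skip
  | push k a => .push (e k) a
  | seq p q => .seq (map e p) (map e q)
  | case k c => .case (e k) (fun o => map e (c o))
  | loop k c => .loop (e k) (fun a => map e (c a))

theorem Run.map {K' : Type} [DecidableEq K'] {e : K → K'} (he : Function.Injective e)
    {p : Prog K A} {S S' : K → List A} {t : ℕ} (h : Run p S S' t) :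
    ∀ (T T' : K' → List A), (∀ k, T (e k) = S k) → (∀ k, T' (e k) = S' k) →
      (∀ k, (∀ j, e j ≠ k) → T' k = T k) → Run (p.map e) T T' t := by
  have upd : ∀ (T : K' → List A) (S : K → List A) (k : K) (l : List A),
      (∀ k, T (e k) = S k) → ∀ j, Function.update T (e k) l (e j) = Function.update S k l j := by
    intro T S k l hT j
    by_cases hj : j = k
    · subst hj; simp
    · rw [Function.update_of_ne hj, Function.update_of_ne (he.ne hj), hT]
  induction h with
  | skip S =>
    intro T T' h1 h2 h3
    have : T' = T := by
      funext k
      by_cases hk : ∃ j, e j = k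
      · obtain ⟨j, rfl⟩ := hk
        rw [h1, h2]
      · push Not at hk
        exact h3 k hk
    rw [this]
    exact .skip T
  | push k a S =>
    intro T T' h1 h2 h3
    have : T' = Function.update T (e k) (a :: T (e k)) := by
      funext k'
      by_cases hk : ∃ j, e j = k'
      · obtain ⟨j, rfl⟩ := hk
        rw [h2, upd T S k _ h1, h1]
      · push Not at hk
        rw [h3 k' hk, Function.update_of_ne (hk k).symm]
    rw [this]
    exact .push _ _ _
  | @seq p q S S' S'' t t' _ _ ih1 ih2 =>
    intro T T'' h1 h2 h3
    classical
    let T' : K' → List A := fun k => if h : ∃ j, e j = k then S' h.choose else T k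
    have hT' : ∀ k, T' (e k) = S' k := by
      intro k
      have hex : ∃ j, e j = e k := ⟨k, rfl⟩
      simp only [T', dif_pos hex]
      rw [he hex.choose_spec]
    have hT'' : ∀ k, (∀ j, e j ≠ k) → T' k = T k := by
      intro k hk
      have hex : ¬ ∃ j, e j = k := by push Not; exact hk
      simp only [T', dif_neg hex]
    exact .seq (ih1 T T' h1 hT' hT'')
      (ih2 T' T'' hT' h2 (fun k hk => (h3 k hk).trans (hT'' k hk).symm))
  | @case_nil k c S S' t hk _ ih =>
    intro T T' h1 h2 h3
    exact .case_nil (by rw [h1, hk]) (ih T T' h1 h2 h3)
  | @case_cons k c S S' t a l hk _ ih =>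
    intro T T' h1 h2 h3
    refine .case_cons (a := a) (l := l) (by rw [h1, hk]) (ih _ T' (upd T S k l h1) h2 ?_)
    intro k' hk'
    rw [Function.update_of_ne (hk' k).symm]
    exact h3 k' hk'
  | @loop_nil k c S hk =>
    intro T T' h1 h2 h3
    have : T' = T := by
      funext k
      by_cases hk : ∃ j, e j = k
      · obtain ⟨j, rfl⟩ := hk
        rw [h1, h2]
      · push Not at hk
        exact h3 k hk
    rw [this]
    exact .loop_nil (by rw [h1, hk])
  | @loop_cons k c S S' S'' t t' a l hk _ _ ih1 ih2 =>
    intro T T'' h1 h2 h3
    classical
    let T' : K' → List A := fun k => if h : ∃ j, e j = k then S' h.choose else T k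
    have hT' : ∀ k, T' (e k) = S' k := by
      intro k
      have hex : ∃ j, e j = e k := ⟨k, rfl⟩
      simp only [T', dif_pos hex]
      rw [he hex.choose_spec]
    have hT'' : ∀ k, (∀ j, e j ≠ k) → T' k = T k := by
      intro k hk
      have hex : ¬ ∃ j, e j = k := by push Not; exact hk
      simp only [T', dif_neg hex]
    refine .loop_cons (a := a) (l := l) (by rw [h1, hk])
      (ih1 _ T' (upd T S k l h1) hT' ?_)
      (ih2 T' T'' hT' h2 (fun k hk => (h3 k hk).trans (hT'' k hk).symm))
    intro k' hk'
    rw [Function.update_of_ne (hk' k).symm]
    exact hT'' k' hk'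

theorem Runs.map {K' : Type} [DecidableEq K'] {e : K → K'} (he : Function.Injective e)
    {p : Prog K A} {S S' : K → List A} {t : ℕ} (h : Runs p S S' t)
    {T T' : K' → List A} (h1 : ∀ k, T (e k) = S k) (h2 : ∀ k, T' (e k) = S' k)
    (h3 : ∀ k, (∀ j, e j ≠ k) → T' k = T k) : Runs (p.map e) T T' t := by
  obtain ⟨t', ht', hr⟩ := h
  exact ⟨t', ht', hr.map he T T' h1 h2 h3⟩

/-- move the contents of `k` to `s`, reversing it -/
theorem runs_rev (k s : K) (hks : k ≠ s) (l : List A) : ∀ (S : K → List A), S k = l →
    Runs (.loop k (fun a => .push s a)) S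
      (Function.update (Function.update S k []) s (l.reverse ++ S s)) (3 * l.length + 2) := by
  induction l with
  | nil =>
    intro S hS
    refine (Runs.loop_nil hS).congr ?_
    funext j
    by_cases h1 : j = s
    · subst h1; simp
    · rw [Function.update_of_ne h1]
      by_cases h2 : j = k
      · subst h2; simp [hS]
      · rw [Function.update_of_ne h2]
  | cons a l ih =>
    intro S hS
    have h1 := Runs.push s a (Function.update S k l)
    have h2 := ih (Function.update (Function.update S k l) s
      (a :: Function.update S k l s)) (by rw [Function.update_of_ne hks]; simp)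
    refine ((Runs.loop_cons hS h1 h2).mono (by simp; omega)).congr ?_
    funext j
    by_cases h1 : j = s
    · subst h1
      simp [Function.update_of_ne hks.symm]
    · rw [Function.update_of_ne h1, Function.update_of_ne h1]
      by_cases h2 : j = k
      · subst h2; simp
      · rw [Function.update_of_ne h2, Function.update_of_ne h2, Function.update_of_ne h1,
          Function.update_of_ne h2]

theorem runs_dist (s k k' : K) (h1 : s ≠ k) (h2 : s ≠ k') (h3 : k ≠ k') (l : List A) :
    ∀ (S : K → List A), S s = l →
    Runs (.loop s (fun a => .seq (.push k a) (.push k' a))) S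
      (Function.update (Function.update (Function.update S s []) k (l.reverse ++ S k)) k'
        (l.reverse ++ S k')) (4 * l.length + 2) := by
  induction l with
  | nil =>
    intro S hS
    refine (Runs.loop_nil hS).congr ?_
    funext j
    by_cases e1 : j = k'
    · subst e1; simp
    · rw [Function.update_of_ne e1]
      by_cases e2 : j = k
      · subst e2; simp
      · rw [Function.update_of_ne e2]
        by_cases e3 : j = s
        · subst e3; simp [hS]
        · rw [Function.update_of_ne e3]
  | cons a l ih =>
    intro S hS
    have g1 := (Runs.push k a (Function.update S s l)).seq (Runs.push k' a _)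
    have g2 := ih (Function.update (Function.update (Function.update S s l) k
      (a :: Function.update S s l k)) k' (a :: Function.update (Function.update S s l) k
      (a :: Function.update S s l k) k')) (by rw [Function.update_of_ne h2,
      Function.update_of_ne h1, Function.update_self])
    refine ((Runs.loop_cons hS g1 g2).mono (by simp; omega)).congr ?_
    funext j
    by_cases e1 : j = k'
    · subst e1
      simp [Function.update_of_ne h2.symm, Function.update_of_ne h3.symm]
    · rw [Function.update_of_ne e1, Function.update_of_ne e1]
      by_cases e2 : j = k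
      · subst e2
        simp [Function.update_of_ne h1.symm, Function.update_of_ne e1]
      · rw [Function.update_of_ne e2, Function.update_of_ne e2]
        by_cases e3 : j = s
        · subst e3; simp
        · rw [Function.update_of_ne e3, Function.update_of_ne e3, Function.update_of_ne e1,
            Function.update_of_ne e2, Function.update_of_ne e3]

/-- copy `k` to `k'` (adding it on top) using the scratch stack `s` -/
def copy (k k' s : K) : Prog K A :=
  .seq (.loop k (fun a => .push s a)) (.loop s (fun a => .seq (.push k a) (.push k' a)))

theorem runs_copy (k k' s : K) (h1 : s ≠ k) (h2 : s ≠ k') (h3 : k ≠ k') (S : K → List A)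
    (hs : S s = []) :
    Runs (copy k k' s) S (Function.update S k' (S k ++ S k')) (7 * (S k).length + 4) := by
  have g1 := runs_rev k s h1.symm (S k) S rfl
  have g2 := runs_dist s k k' h1 h2 h3 _ _ (rfl : Function.update (Function.update S k []) s
    ((S k).reverse ++ S s) s = _)
  refine ((g1.seq g2).mono ?_).congr ?_
  · simp [hs]; omega
  · funext j
    by_cases e1 : j = k'
    · subst e1
      simp [hs, Function.update_of_ne h2.symm, Function.update_of_ne h3.symm]
    · rw [Function.update_of_ne e1, Function.update_of_ne e1]
      by_cases e2 : j = k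
      · subst e2
        simp [hs, Function.update_of_ne h1.symm]
      · rw [Function.update_of_ne e2]
        by_cases e3 : j = s
        · subst e3; simp [hs]
        · rw [Function.update_of_ne e3, Function.update_of_ne e3, Function.update_of_ne e2]

/-- move `k` to `k'` (adding it on top) using the scratch stack `s` -/
def move (k k' s : K) : Prog K A :=
  .seq (.loop k (fun a => .push s a)) (.loop s (fun a => .push k' a))

theorem runs_move (k k' s : K) (h1 : s ≠ k) (h2 : s ≠ k') (h3 : k ≠ k') (S : K → List A)
    (hs : S s = []) :
    Runs (move k k' s) S (Function.update (Function.update S k []) k' (S k ++ S k'))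
      (6 * (S k).length + 4) := by
  have g1 := runs_rev k s h1.symm (S k) S rfl
  have g2 := runs_rev s k' h2 _ _ (rfl : Function.update (Function.update S k []) s
    ((S k).reverse ++ S s) s = _)
  refine ((g1.seq g2).mono ?_).congr ?_
  · simp [hs]; omega
  · funext j
    by_cases e1 : j = k'
    · subst e1
      simp [hs, Function.update_of_ne h2.symm, Function.update_of_ne h3.symm]
    · rw [Function.update_of_ne e1, Function.update_of_ne e1]
      by_cases e2 : j = s
      · subst e2
        rw [Function.update_self, Function.update_of_ne h1, hs]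
      · rw [Function.update_of_ne e2, Function.update_of_ne e2]

theorem runs_clear1 (k : K) (l : List A) : ∀ (S : K → List A), S k = l →
    Runs (.loop k (fun _ => .skip)) S (Function.update S k []) (2 * l.length + 2) := by
  induction l with
  | nil =>
    intro S hS
    refine (Runs.loop_nil hS).congr ?_
    rw [← hS, Function.update_eq_self]
  | cons a l ih =>
    intro S hS
    have h2 := ih (Function.update S k l) (by simp)
    refine ((Runs.loop_cons hS (Runs.skip _) h2).mono (by simp; omega)).congr ?_
    simp

/-- push a constant list on `k` -/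
def pushList (k : K) : List A → Prog K A
  | [] => .skip
  | a :: l => .seq (pushList k l) (.push k a)

theorem runs_pushList (k : K) (l : List A) : ∀ (S : K → List A),
    Runs (pushList k l) S (Function.update S k (l ++ S k)) l.length := by
  induction l with
  | nil =>
    intro S
    refine (Runs.skip S).congr ?_
    simp
  | cons a l ih =>
    intro S
    refine ((ih S).seq (Runs.push k a _)).congr ?_
    simp

/-- perform the programs `p j` for all `j` in a list -/
def seqList {J : Type} (p : J → Prog K A) : List J → Prog K A
  | [] => .skip
  | j :: l => .seq (p j) (seqList p l)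

/-- General rule for `seqList`: `St l'` is the state when the set `l'` has been processed. -/
theorem runs_seqList {J : Type} [DecidableEq J] (p : J → Prog K A)
    (St : (J → Prop) → K → List A) (c : J → ℕ)
    (hp : ∀ (D : J → Prop) (j : J), ¬ D j →
      Runs (p j) (St D) (St (fun i => i = j ∨ D i)) (c j)) (l : List J) (hl : l.Nodup) :
    ∀ D : J → Prop, (∀ j ∈ l, ¬ D j) →
      Runs (seqList p l) (St D) (St (fun i => i ∈ l ∨ D i)) (l.map c).sum := by
  induction l with
  | nil =>
    intro D _
    refine (Runs.skip _).congr ?_
    simp
  | cons j l ih =>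
    intro D hD
    have h1 := hp D j (hD j (by simp))
    have h2 := ih (List.nodup_cons.1 hl).2 (fun i => i = j ∨ D i) (by
      intro i hi
      push Not
      refine ⟨?_, hD i (by simp [hi])⟩
      rintro rfl
      exact (List.nodup_cons.1 hl).1 hi)
    refine ((h1.seq h2).mono (by simp)).congr ?_
    congr 1
    funext i
    simp only [List.mem_cons, eq_iff_iff]
    tauto

end Prog

end Pool.Agent.PartSep.TM
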